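import Pool.Agent.X222.PR.Main

/-! # Moments over all characters -/

set_option autoImplicit false

namespace Pool.Agent.X222.PR

open Finset Polynomial Pool.Agent.H471R4.BW Pool.Agent.H435R3.Paley

variable {p : ℕ} [Fact p.Prime]

theorem conj_char (χ : DirichletCharacter ℂ p) {Q : ZMod p} (hQ : Q ≠ 0) :
    (starRingEnd ℂ) (χ Q) = χ Q⁻¹ := by
  have h1 : ‖χ Q‖ = 1 := norm_unit χ hQ
  have h2 : χ Q * χ Q⁻¹ = 1 := by rw [← map_mul, mul_inv_cancel₀ hQ, map_one]
  have h3 : χ Q * (starRingEnd ℂ) (χ Q) = 1 := by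
    rw [Complex.mul_conj, Complex.normSq_eq_norm_sq, h1]
    simp
  have h4 : χ Q ≠ 0 := by
    intro h
    rw [h, norm_zero] at h1
    exact zero_ne_one h1
  exact mul_left_cancel₀ h4 (h3.trans h2.symm)

open Classical in
theorem char_orth (P Q : ZMod p) :
    ‖∑ χ : DirichletCharacter ℂ p, χ P * (starRingEnd ℂ) (χ Q)‖ ≤ if P = Q then (p : ℝ) else 0 := by
  have hpp : p.Prime := Fact.out
  by_cases hQ : Q = 0
  · have e : ∀ χ : DirichletCharacter ℂ p, χ P * (starRingEnd ℂ) (χ Q) = 0 := by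
      intro χ
      rw [hQ, MulChar.map_zero, map_zero, mul_zero]
    rw [sum_congr rfl fun χ _ => e χ, sum_const_zero, norm_zero]
    split_ifs
    · positivity
    · exact le_rfl
  · have e : ∀ χ : DirichletCharacter ℂ p, χ P * (starRingEnd ℂ) (χ Q) = χ Q⁻¹ * χ P := by
      intro χ
      rw [conj_char χ hQ, mul_comm]
    rw [sum_congr rfl fun χ _ => e χ,
      DirichletCharacter.sum_char_inv_mul_char_eq ℂ (isUnit_iff_ne_zero.2 hQ) P]
    by_cases h : P = Q
    · rw [if_pos h.symm, if_pos h, Complex.norm_natCast]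
      exact_mod_cast Nat.totient_le p
    · rw [if_neg (Ne.symm h), if_neg h, norm_zero]

open Classical in
/-- few solutions of an equation between two products of shifts -/
theorem roots_le (r : ℕ) (b c : Fin r → ℕ) (hb : ∀ i, b i < p) (hc : ∀ i, c i < p)
    (huniq : Uniq b c) :
    ((univ : Finset (ZMod p)).filter fun x =>
      ∏ i, (x + (b i : ZMod p)) = ∏ i, (x + (c i : ZMod p))).card ≤ r := by
  set P : (ZMod p)[X] := ∏ i, (X + C (b i : ZMod p)) with hP
  set R : (ZMod p)[X] := ∏ i, (X + C (c i : ZMod p)) with hR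
  have hPdeg : P.natDegree = r := by
    rw [hP, natDegree_prod_of_monic _ _ fun i _ => monic_X_add_C _,
      sum_congr rfl (fun i _ => natDegree_X_add_C (b i : ZMod p))]
    simp
  have hRdeg : R.natDegree = r := by
    rw [hR, natDegree_prod_of_monic _ _ fun i _ => monic_X_add_C _,
      sum_congr rfl (fun i _ => natDegree_X_add_C (c i : ZMod p))]
    simp
  have hne : P ≠ R := by
    intro heq
    obtain ⟨v, hv⟩ := huniq
    have hvB : v < p := by
      by_contra hcon
      have h1 : (univ.filter fun i => b i = v) = ∅ := by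
        refine filter_false_of_mem fun i _ hi => ?_
        have := hb i
        omega
      have h2 : (univ.filter fun i => c i = v) = ∅ := by
        refine filter_false_of_mem fun i _ hi => ?_
        have := hc i
        omega
      rw [h1, h2] at hv
      simp at hv
    have e1 : rootMultiplicity (-(v : ZMod p)) P = (univ.filter fun i => b i = v).card := by
      rw [hP, csl_rm_prod _ _ _ (fun i _ => (monic_X_add_C _).ne_zero),
        csl_count le_rfl b hb v hvB]
    have e2 : rootMultiplicity (-(v : ZMod p)) R = (univ.filter fun i => c i = v).card := by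
      rw [hR, csl_rm_prod _ _ _ (fun i _ => (monic_X_add_C _).ne_zero),
        csl_count le_rfl c hc v hvB]
    rw [heq, e2] at e1
    omega
  have hne0 : P - R ≠ 0 := sub_ne_zero.2 hne
  have hsub : ((univ : Finset (ZMod p)).filter fun x =>
      ∏ i, (x + (b i : ZMod p)) = ∏ i, (x + (c i : ZMod p))) ⊆ (P - R).roots.toFinset := by
    intro x hx
    rw [Multiset.mem_toFinset, mem_roots hne0, IsRoot.def, eval_sub, sub_eq_zero, hP, hR,
      eval_prod, eval_prod]
    simpa using (mem_filter.1 hx).2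
  calc _ ≤ (P - R).roots.toFinset.card := card_le_card hsub
    _ ≤ Multiset.card (P - R).roots := Multiset.toFinset_card_le _
    _ ≤ (P - R).natDegree := card_roots' _
    _ ≤ max P.natDegree R.natDegree := natDegree_sub_le _ _
    _ = r := by rw [hPdeg, hRdeg, max_self]

open Classical in
theorem char_momB (r n : ℕ) (hr : 1 ≤ r) (w : Fin n → ZMod p) (hw : Function.Injective w) :
    ∑ χ : DirichletCharacter ℂ p, ∑ x : ZMod p, ‖∑ j, χ (x + w j)‖ ^ (2 * r) ≤
      p * ((3 * r * n : ℝ) ^ r * p + r * (n : ℝ) ^ (2 * r)) := by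
  have hp0 : (0 : ℝ) ≤ p := Nat.cast_nonneg p
  have hW : ((∑ χ : DirichletCharacter ℂ p, ∑ x : ZMod p, ‖∑ j, χ (x + w j)‖ ^ (2 * r) : ℝ) : ℂ) =
      ∑ u : (Fin r → Fin n) × (Fin r → Fin n), ∑ x : ZMod p,
        ∑ χ : DirichletCharacter ℂ p, term χ r n w u.1 u.2 x := by
    have e1 : ∀ χ : DirichletCharacter ℂ p,
        ((∑ x : ZMod p, ‖∑ j, χ (x + w j)‖ ^ (2 * r) : ℝ) : ℂ) =
          ∑ u : (Fin r → Fin n) × (Fin r → Fin n), ∑ x : ZMod p, term χ r n w u.1 u.2 x := by
      intro χ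
      rw [Finset.sum_comm]
      push_cast
      refine Finset.sum_congr rfl fun x _ => ?_
      have := expand χ r n w x
      push_cast at this
      rw [this, ← Finset.univ_product_univ, Finset.sum_product]
    rw [Complex.ofReal_sum, sum_congr rfl fun χ _ => e1 χ, Finset.sum_comm]
    exact sum_congr rfl fun u _ => Finset.sum_comm
  have hW0 : 0 ≤ ∑ χ : DirichletCharacter ℂ p, ∑ x : ZMod p, ‖∑ j, χ (x + w j)‖ ^ (2 * r) :=
    Finset.sum_nonneg fun χ _ => Finset.sum_nonneg fun x _ => by positivity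
  have hW1 : ∑ χ : DirichletCharacter ℂ p, ∑ x : ZMod p, ‖∑ j, χ (x + w j)‖ ^ (2 * r) =
      ‖∑ u : (Fin r → Fin n) × (Fin r → Fin n), ∑ x : ZMod p,
        ∑ χ : DirichletCharacter ℂ p, term χ r n w u.1 u.2 x‖ := by
    rw [← hW, Complex.norm_real, Real.norm_eq_abs, abs_of_nonneg hW0]
  rw [hW1]
  have hterm : ∀ (u : (Fin r → Fin n) × (Fin r → Fin n)) (x : ZMod p),
      ‖∑ χ : DirichletCharacter ℂ p, term χ r n w u.1 u.2 x‖ ≤
        if ∏ i, (x + w (u.1 i)) = ∏ i, (x + w (u.2 i)) then (p : ℝ) else 0 := by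
    intro u x
    have e : ∀ χ : DirichletCharacter ℂ p, term χ r n w u.1 u.2 x =
        χ (∏ i, (x + w (u.1 i))) * (starRingEnd ℂ) (χ (∏ i, (x + w (u.2 i)))) := by
      intro χ
      unfold term
      rw [map_prod χ, map_prod χ, map_prod (starRingEnd ℂ)]
    rw [sum_congr rfl fun χ _ => e χ]
    exact char_orth _ _
  refine (norm_sum_le _ _).trans ?_
  rw [← Finset.sum_filter_add_sum_filter_not Finset.univ
    (fun u : (Fin r → Fin n) × (Fin r → Fin n) =>
      ¬ Uniq (fun i => (u.1 i : ℕ)) (fun i => (u.2 i : ℕ))), mul_add]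
  refine add_le_add ?_ ?_
  · have h1 : ∀ u ∈ Finset.univ.filter (fun u : (Fin r → Fin n) × (Fin r → Fin n) =>
        ¬ Uniq (fun i => (u.1 i : ℕ)) (fun i => (u.2 i : ℕ))),
        ‖∑ x : ZMod p, ∑ χ : DirichletCharacter ℂ p, term χ r n w u.1 u.2 x‖ ≤ (p : ℝ) * p := by
      intro u _
      refine (norm_sum_le _ _).trans ?_
      calc ∑ x : ZMod p, ‖∑ χ : DirichletCharacter ℂ p, term χ r n w u.1 u.2 x‖
          ≤ ∑ _x : ZMod p, (p : ℝ) := Finset.sum_le_sum fun x _ => (hterm u x).trans (by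
            split_ifs
            · exact le_rfl
            · exact hp0)
        _ = (p : ℝ) * p := by rw [sum_const, card_univ, ZMod.card, nsmul_eq_mul]
    refine (Finset.sum_le_card_nsmul _ _ _ h1).trans ?_
    rw [nsmul_eq_mul]
    calc _ ≤ (3 * r * n : ℝ) ^ r * ((p : ℝ) * p) :=
          mul_le_mul_of_nonneg_right (tup r n hr) (by positivity)
      _ = _ := by ring
  · have h1 : ∀ u ∈ Finset.univ.filter (fun u : (Fin r → Fin n) × (Fin r → Fin n) =>
        ¬ ¬ Uniq (fun i => (u.1 i : ℕ)) (fun i => (u.2 i : ℕ))),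
        ‖∑ x : ZMod p, ∑ χ : DirichletCharacter ℂ p, term χ r n w u.1 u.2 x‖ ≤ (r : ℝ) * p := by
      intro u hu
      rw [Finset.mem_filter] at hu
      have h3 := roots_le r (fun i => (w (u.1 i)).val) (fun i => (w (u.2 i)).val)
        (fun i => ZMod.val_lt _) (fun i => ZMod.val_lt _)
        (uniq_val w hw u.1 u.2 (not_not.1 hu.2))
      simp only [ZMod.natCast_zmod_val] at h3
      refine (norm_sum_le _ _).trans ((sum_le_sum fun x _ => hterm u x).trans ?_)
      rw [← sum_filter, sum_const, nsmul_eq_mul]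
      exact mul_le_mul_of_nonneg_right (by exact_mod_cast h3) hp0
    refine (Finset.sum_le_card_nsmul _ _ _ h1).trans ?_
    rw [nsmul_eq_mul]
    have h2 : (((Finset.univ.filter (fun u : (Fin r → Fin n) × (Fin r → Fin n) =>
        ¬ ¬ Uniq (fun i => (u.1 i : ℕ)) (fun i => (u.2 i : ℕ)))).card : ℕ) : ℝ) ≤
        (n : ℝ) ^ (2 * r) := by
      have h3 := Finset.card_filter_le (Finset.univ : Finset ((Fin r → Fin n) × (Fin r → Fin n)))
        (fun u => ¬ ¬ Uniq (fun i => (u.1 i : ℕ)) (fun i => (u.2 i : ℕ)))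
      have h4 : (Finset.univ : Finset ((Fin r → Fin n) × (Fin r → Fin n))).card = n ^ (2 * r) := by
        rw [Finset.card_univ, Fintype.card_prod, Fintype.card_fun, Fintype.card_fin,
          Fintype.card_fin, two_mul, pow_add]
      rw [h4] at h3
      exact_mod_cast h3
    calc _ ≤ (n : ℝ) ^ (2 * r) * ((r : ℝ) * p) :=
          mul_le_mul_of_nonneg_right h2 (by positivity)
      _ = p * (r * (n : ℝ) ^ (2 * r)) := by ring

theorem char_mom (r : ℕ) (hr : 1 ≤ r) (B : Finset (ZMod p)) :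
    ∑ χ : DirichletCharacter ℂ p, ∑ x : ZMod p, ‖∑ b ∈ B, χ (x + b)‖ ^ (2 * r) ≤
      p * ((3 * r * B.card : ℝ) ^ r * p + r * (B.card : ℝ) ^ (2 * r)) := by
  classical
  have h := char_momB r B.card hr (fun j => (B.equivFin.symm j : ZMod p))
    (fun i j hij => B.equivFin.symm.injective (Subtype.ext hij))
  have e : ∀ (χ : DirichletCharacter ℂ p) (x : ZMod p),
      ∑ j : Fin B.card, χ (x + (B.equivFin.symm j : ZMod p)) = ∑ b ∈ B, χ (x + b) := by
    intro χ x
    rw [Equiv.sum_comp B.equivFin.symm (fun b : B => χ (x + (b : ZMod p)))]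
    exact Finset.sum_coe_sort B (fun b => χ (x + b))
  simp only [e] at h
  exact h

/-- the total number of pairs (character, shift) with a large sum -/
theorem lev_char (B : Finset (ZMod p)) (hB : 1 ≤ B.card) (r : ℕ) (hr : 1 ≤ r) (η : ℝ)
    (hη : 0 < η) :
    ∑ χ : DirichletCharacter ℂ p, ((lev χ B (η * B.card / 2)).card : ℝ) ≤
      p * ((4 / η ^ 2) ^ r * ((3 * r / B.card) ^ r * p + r)) := by
  have hn0 : (0 : ℝ) < B.card := by exact_mod_cast hB
  set n : ℝ := (B.card : ℝ) with hn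
  have h1 := char_mom (p := p) r hr B
  rw [← hn] at h1
  have h2 : (∑ χ : DirichletCharacter ℂ p, ((lev χ B (η * n / 2)).card : ℝ)) *
      (η * n / 2) ^ (2 * r) ≤
      ∑ χ : DirichletCharacter ℂ p, ∑ x : ZMod p, ‖∑ b ∈ B, χ (x + b)‖ ^ (2 * r) := by
    rw [sum_mul]
    refine sum_le_sum fun χ _ => ?_
    rw [← nsmul_eq_mul]
    refine le_trans ?_ (sum_le_sum_of_subset_of_nonneg (subset_univ (lev χ B (η * n / 2)))
      fun x _ _ => by positivity)
    refine card_nsmul_le_sum _ _ _ fun x hx => ?_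
    exact pow_le_pow_left₀ (by positivity) (mem_filter.1 hx).2 _
  have h3 := h2.trans h1
  have e1 : (η * n / 2) ^ (2 * r) = n ^ (2 * r) * ((4 / η ^ 2) ^ r)⁻¹ := by
    rw [pow_mul, pow_mul, ← inv_pow, ← mul_pow]
    congr 1
    field_simp
    norm_num
  have e2 : (p : ℝ) * ((3 * (r : ℝ) * n) ^ r * p + r * n ^ (2 * r)) =
      n ^ (2 * r) * (p * ((3 * r / n) ^ r * p + r)) := by
    have e3 : (3 * (r : ℝ) * n) ^ r = n ^ (2 * r) * (3 * r / n) ^ r := by
      rw [pow_mul, ← mul_pow]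
      congr 1
      field_simp
    rw [e3]
    ring
  rw [e1, e2] at h3
  have hy : (0 : ℝ) < (4 / η ^ 2) ^ r := by positivity
  set Z : ℝ := ∑ χ : DirichletCharacter ℂ p, ((lev χ B (η * n / 2)).card : ℝ) with hZ
  have h4 : Z * ((4 / η ^ 2) ^ r)⁻¹ ≤ p * ((3 * r / n) ^ r * p + r) := by
    refine le_of_mul_le_mul_left (a := n ^ (2 * r)) ?_ (by positivity)
    calc _ = Z * (n ^ (2 * r) * ((4 / η ^ 2) ^ r)⁻¹) := by ring
      _ ≤ _ := h3
  rw [← div_eq_mul_inv, div_le_iff₀ hy] at h4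
  refine h4.trans (le_of_eq ?_)
  ring

end Pool.Agent.X222.PR
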