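import Pool.Agent.X222.PR.Params

/-! # Random hosts: the choice of the order of the moments over all characters -/

set_option autoImplicit false

namespace Pool.Agent.X222.PR

open Finset

theorem params2 (ε : ℝ) (hε : 0 < ε) (hε1 : ε ≤ 1) : ∃ C : ℝ, 1 ≤ C ∧ ∃ p₀ : ℕ, 3 ≤ p₀ ∧
    ∀ p : ℕ, p₀ ≤ p → ∀ (η : ℝ) (n : ℕ), 0 < η → η ≤ 1 → n ≤ p →
      C * η ^ (-C) * Real.log p ≤ n →
      ∃ r : ℕ, 1 ≤ r ∧ (4 / η ^ 2) ^ r * ((3 * r / n) ^ r * p + r) ≤ (p : ℝ) ^ ε := by
  obtain ⟨C, hC⟩ : ∃ C : ℝ, C = 4 ^ (8 / ε) + 16 / ε := ⟨_, rfl⟩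
  have h4 : (0 : ℝ) < 4 ^ (8 / ε) := by positivity
  have h16 : 16 ≤ 16 / ε := by
    rw [le_div_iff₀ hε]
    linarith
  have hC16 : 16 / ε ≤ C := by rw [hC]; linarith
  have hC4 : 4 ^ (8 / ε) ≤ C := by rw [hC]; linarith
  have hC1 : 1 ≤ C := by linarith
  obtain ⟨p₁, hp₁3, hp₁⟩ := log_le_rpow 2 (ε / 4) (by positivity)
  refine ⟨C, hC1, max p₁ ⌈(2 : ℝ) ^ C⌉₊, le_trans hp₁3 (le_max_left _ _),
    fun p hp η n hη hη1 hnp hn => ?_⟩
  have hp1 : p₁ ≤ p := (le_max_left _ _).trans hp
  have hp3 : 3 ≤ p := hp₁3.trans hp1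
  have hp2 : (2 : ℝ) ^ C ≤ p := (Nat.le_ceil _).trans (by exact_mod_cast (le_max_right _ _).trans hp)
  have hp0 : (0 : ℝ) < p := by positivity
  have hlog := one_le_log hp3
  have hb := hp₁ p hp1
  set lp := Real.log p with hlp
  have hpe : (p : ℝ) = Real.exp lp := by rw [hlp, Real.exp_log hp0]
  have hy4 : (4 : ℝ) ≤ 4 / η ^ 2 := by
    rw [le_div_iff₀ (by positivity)]
    nlinarith
  set y := 4 / η ^ 2 with hy
  have hy0 : 0 < y := by positivity
  set ly := Real.log y with hly
  have hye : y = Real.exp ly := by rw [hly, Real.exp_log hy0]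
  have hly1 : 1 ≤ ly := by
    rw [hly, Real.le_log_iff_exp_le hy0]
    linarith [Real.exp_one_lt_d9]
  have hlη : ly = Real.log 4 - 2 * Real.log η := by
    rw [hly, hy, Real.log_div (by norm_num) (by positivity), Real.log_pow]
    norm_num
  have hηC : η ^ (-C) = Real.exp (C * (ly - Real.log 4) / 2) := by
    rw [Real.rpow_def_of_pos hη]
    congr 1
    rw [hlη]
    ring
  have hl4 : Real.log 4 = 2 * Real.log 2 := by
    rw [show (4 : ℝ) = 2 ^ 2 by norm_num, Real.log_pow]
    norm_num
  have hηpos : 0 < η ^ (-C) := by positivity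
  rcases lt_or_ge (ε * lp / 4) ly with hcase | hcase
  · exfalso
    have h1 : (p : ℝ) < n := by
      calc (p : ℝ) = p ^ 2 / p := by field_simp
        _ ≤ p ^ 2 / 2 ^ C := div_le_div_of_nonneg_left (by positivity) (by positivity) hp2
        _ = Real.exp (2 * lp - C * Real.log 2) := by
            rw [Real.exp_sub, Real.rpow_def_of_pos (by norm_num : (0 : ℝ) < 2), hpe,
              ← Real.exp_nat_mul]
            push_cast
            rw [mul_comm (Real.log 2)]
        _ < Real.exp (C * (ly - Real.log 4) / 2) := by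
            rw [Real.exp_lt_exp, hl4]
            have h2 : 4 * lp ≤ C * (ε * lp / 4) := by
              calc 4 * lp = (16 / ε) * (ε * lp / 4) := by field_simp; norm_num
                _ ≤ C * (ε * lp / 4) := mul_le_mul_of_nonneg_right hC16 (by positivity)
            have h3 : C * (ε * lp / 4) < C * ly := mul_lt_mul_of_pos_left hcase (by linarith)
            nlinarith
        _ = 1 * η ^ (-C) * 1 := by rw [hηC]; ring
        _ ≤ C * η ^ (-C) * lp := by
            refine mul_le_mul ?_ hlog zero_le_one (by positivity)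
            exact mul_le_mul_of_nonneg_right hC1 hηpos.le
        _ ≤ n := hn
    have h2 : (n : ℝ) ≤ p := by exact_mod_cast hnp
    linarith
  · set X := ε * lp / (4 * ly) with hX
    have hly0 : 0 < ly := by linarith
    have hX1 : 1 ≤ X := by
      rw [hX, le_div_iff₀ (by positivity)]
      linarith
    have hXly : X * ly = ε * lp / 4 := by rw [hX]; field_simp
    obtain ⟨r, hr⟩ : ∃ r : ℕ, r = ⌊X⌋₊ := ⟨_, rfl⟩
    have hr1 : 1 ≤ r := by rw [hr]; exact (Nat.one_le_floor_iff X).2 hX1
    have hrX : (r : ℝ) ≤ X := by rw [hr]; exact Nat.floor_le (by linarith)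
    have hrX2 : X < r + 1 := by rw [hr]; exact Nat.lt_floor_add_one X
    have hr1' : (1 : ℝ) ≤ r := by exact_mod_cast hr1
    have hrX3 : X / 2 ≤ r := by linarith
    have hn1 : Real.exp (8 / ε * ly) * lp ≤ n := by
      refine le_trans (mul_le_mul_of_nonneg_right ?_ (by linarith)) hn
      have h1 : Real.exp (8 / ε * ly) = 4 ^ (8 / ε) * η ^ (-(16 / ε)) := by
        rw [Real.rpow_def_of_pos hη, Real.rpow_def_of_pos (by norm_num : (0 : ℝ) < 4),
          ← Real.exp_add]
        congr 1
        rw [hlη]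
        ring
      rw [h1]
      refine mul_le_mul hC4 ?_ (by positivity) (by linarith)
      refine Real.rpow_le_rpow_of_exponent_ge hη hη1 ?_
      linarith
    have hn0 : (0 : ℝ) < n := lt_of_lt_of_le (by positivity) hn1
    have h3r : 3 * (r : ℝ) ≤ lp := by
      have h1 : X ≤ lp / 4 := by
        rw [hX, div_le_div_iff₀ (by positivity) (by norm_num)]
        have h2 : ε * lp ≤ 1 * lp := mul_le_mul_of_nonneg_right hε1 (by linarith)
        have h3 : lp * 1 ≤ lp * ly := mul_le_mul_of_nonneg_left hly1 (by linarith)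
        nlinarith
      linarith
    have hq : 3 * (r : ℝ) / n ≤ Real.exp (-(8 / ε * ly)) := by
      rw [div_le_iff₀ hn0, Real.exp_neg, inv_mul_eq_div, le_div_iff₀ (Real.exp_pos _)]
      calc 3 * (r : ℝ) * Real.exp (8 / ε * ly) ≤ lp * Real.exp (8 / ε * ly) :=
            mul_le_mul_of_nonneg_right h3r (Real.exp_pos _).le
        _ ≤ n := by rw [mul_comm]; exact hn1
    have hq2 : (3 * (r : ℝ) / n) ^ r * p ≤ 1 := by
      have h1 : (3 * (r : ℝ) / n) ^ r ≤ Real.exp (-lp) := by
        calc (3 * (r : ℝ) / n) ^ r ≤ Real.exp (-(8 / ε * ly)) ^ r :=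
              pow_le_pow_left₀ (by positivity) hq r
          _ = Real.exp (-(8 / ε * (r * ly))) := by
              rw [← Real.exp_nat_mul]
              congr 1
              ring
          _ ≤ Real.exp (-lp) := by
              rw [Real.exp_le_exp, neg_le_neg_iff]
              calc lp = 8 / ε * (ε * lp / 4 / 2) := by field_simp; norm_num
                _ = 8 / ε * (X / 2 * ly) := by rw [← hXly]; ring
                _ ≤ 8 / ε * (r * ly) := by
                    refine mul_le_mul_of_nonneg_left ?_ (by positivity)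
                    exact mul_le_mul_of_nonneg_right hrX3 hly0.le
      calc (3 * (r : ℝ) / n) ^ r * p ≤ Real.exp (-lp) * Real.exp lp :=
            mul_le_mul h1 hpe.le hp0.le (Real.exp_pos _).le
        _ = 1 := by
            rw [← Real.exp_add, neg_add_cancel, Real.exp_zero]
    have hyr : y ^ r ≤ (p : ℝ) ^ (ε / 4) := by
      rw [hye, ← Real.exp_nat_mul, Real.rpow_def_of_pos hp0, Real.exp_le_exp]
      calc (r : ℝ) * ly ≤ X * ly := mul_le_mul_of_nonneg_right hrX hly0.le
        _ = lp * (ε / 4) := by rw [hXly]; ring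
    refine ⟨r, hr1, ?_⟩
    have hpe1 : (1 : ℝ) ≤ (p : ℝ) ^ (ε / 4) :=
      Real.one_le_rpow (by exact_mod_cast (by omega : 1 ≤ p)) (by positivity)
    calc y ^ r * ((3 * (r : ℝ) / n) ^ r * p + r)
        ≤ (p : ℝ) ^ (ε / 4) * (p : ℝ) ^ (ε / 4) := by
          refine mul_le_mul hyr (by linarith) ?_ (by positivity)
          positivity
      _ = (p : ℝ) ^ (ε / 2) := by
          rw [← Real.rpow_add hp0]
          congr 1
          ring
      _ ≤ (p : ℝ) ^ ε :=
          Real.rpow_le_rpow_of_exponent_le (by exact_mod_cast (by omega : 1 ≤ p)) (by linarith)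

end Pool.Agent.X222.PR
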