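import Pool.Agent.X222.PR.Chars
import Pool.Agent.X222.PR.Params2

/-! # Disjoint unions of affine copies of given patterns -/

set_option autoImplicit false

namespace Pool.Agent.X222.PR

open Finset

section built

variable {p : ℕ} [Fact p.Prime]

/-- `P` is an affine image of a member of `F` -/
def IsCopy (F : Finset (Finset (ZMod p))) (P : Finset (ZMod p)) : Prop :=
  ∃ B₀ ∈ F, ∃ u v : ZMod p, u ≠ 0 ∧ P = B₀.image fun b => u * b + v

theorem affine_norm (χ : DirichletCharacter ℂ p) (B₀ : Finset (ZMod p)) {u : ZMod p} (hu : u ≠ 0)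
    (v a : ZMod p) : ‖∑ b ∈ B₀.image (fun b => u * b + v), χ (a + b)‖ ≤
      ‖∑ b ∈ B₀, χ ((a + v) * u⁻¹ + b)‖ := by
  classical
  rw [sum_image (fun x _ y _ h => mul_left_cancel₀ hu (add_right_cancel h))]
  have e : ∑ b ∈ B₀, χ (a + (u * b + v)) = χ u * ∑ b ∈ B₀, χ ((a + v) * u⁻¹ + b) := by
    rw [mul_sum]
    refine sum_congr rfl fun b _ => ?_
    rw [← map_mul]
    congr 1
    field_simp
    ring
  rw [e, norm_mul]
  exact mul_le_of_le_one_left (norm_nonneg _) (χ.norm_le_one _)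

open Classical in
/-- one affine copy -/
theorem copy_bound (χ : DirichletCharacter ℂ p) (B₀ : Finset (ZMod p)) {u : ZMod p} (hu : u ≠ 0)
    (v : ZMod p) (A : Finset (ZMod p)) (η t : ℝ) (hη : 0 ≤ η)
    (ht : ((A.filter fun a => (a + v) * u⁻¹ ∈ lev χ B₀ (η * B₀.card / 2)).card : ℝ) ≤ t)
    (htA : 2 * t ≤ η * A.card) :
    ∑ a ∈ A, ‖∑ b ∈ B₀.image (fun b => u * b + v), χ (a + b)‖ ≤ η * (A.card * B₀.card) := by
  have h1 : ∀ a ∈ A, ‖∑ b ∈ B₀.image (fun b => u * b + v), χ (a + b)‖ ≤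
      ‖∑ b ∈ B₀, χ ((a + v) * u⁻¹ + b)‖ := fun a _ => affine_norm χ B₀ hu v a
  refine (sum_le_sum h1).trans ?_
  rw [← sum_filter_add_sum_filter_not A fun a => (a + v) * u⁻¹ ∈ lev χ B₀ (η * B₀.card / 2)]
  have h2 : ∑ a ∈ A.filter (fun a => (a + v) * u⁻¹ ∈ lev χ B₀ (η * B₀.card / 2)),
      ‖∑ b ∈ B₀, χ ((a + v) * u⁻¹ + b)‖ ≤ t * B₀.card := by
    refine (sum_le_card_nsmul _ _ (B₀.card : ℝ) fun a _ => ?_).trans ?_
    · refine (norm_sum_le _ _).trans ((sum_le_card_nsmul _ _ 1 fun b _ => χ.norm_le_one _).trans ?_)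
      rw [nsmul_eq_mul, mul_one]
    · rw [nsmul_eq_mul]
      exact mul_le_mul_of_nonneg_right ht (Nat.cast_nonneg _)
  have h3 : ∑ a ∈ A.filter (fun a => ¬ (a + v) * u⁻¹ ∈ lev χ B₀ (η * B₀.card / 2)),
      ‖∑ b ∈ B₀, χ ((a + v) * u⁻¹ + b)‖ ≤ A.card * (η * B₀.card / 2) := by
    refine (sum_le_card_nsmul _ _ (η * B₀.card / 2) fun a ha => ?_).trans ?_
    · have h4 := (mem_filter.1 ha).2
      by_contra hcon
      push Not at hcon
      exact h4 (mem_filter.2 ⟨mem_univ _, hcon.le⟩)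
    · rw [nsmul_eq_mul]
      exact mul_le_mul_of_nonneg_right (by exact_mod_cast card_filter_le _ _) (by positivity)
  have hB0 : (0 : ℝ) ≤ B₀.card := Nat.cast_nonneg _
  nlinarith

/-- combinations of affine images -/
theorem atoms_bound (χ : DirichletCharacter ℂ p) (F : Finset (Finset (ZMod p)))
    (A : Finset (ZMod p)) (η : ℝ) (m : ℕ) (c : Fin m → ℂ) (P : Fin m → Finset (ZMod p))
    (hP : ∀ i, IsCopy F (P i))
    (h : ∀ B₀ ∈ F, ∀ u v : ZMod p, u ≠ 0 →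
      ∑ a ∈ A, ‖∑ b ∈ B₀.image (fun b => u * b + v), χ (a + b)‖ ≤ η * (A.card * B₀.card)) :
    ∑ a ∈ A, ‖∑ i, c i * ∑ b ∈ P i, χ (a + b)‖ ≤ η * (A.card * ∑ i, ‖c i‖ * (P i).card) := by
  have h1 : ∑ a ∈ A, ‖∑ i, c i * ∑ b ∈ P i, χ (a + b)‖ ≤
      ∑ i, ‖c i‖ * ∑ a ∈ A, ‖∑ b ∈ P i, χ (a + b)‖ := by
    calc ∑ a ∈ A, ‖∑ i, c i * ∑ b ∈ P i, χ (a + b)‖
        ≤ ∑ a ∈ A, ∑ i, ‖c i‖ * ‖∑ b ∈ P i, χ (a + b)‖ := by
          refine sum_le_sum fun a _ => (norm_sum_le _ _).trans (le_of_eq ?_)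
          exact sum_congr rfl fun i _ => norm_mul _ _
      _ = ∑ i, ‖c i‖ * ∑ a ∈ A, ‖∑ b ∈ P i, χ (a + b)‖ := by
          rw [sum_comm]
          exact sum_congr rfl fun i _ => (mul_sum _ _ _).symm
  refine h1.trans ?_
  rw [mul_sum, mul_sum]
  refine sum_le_sum fun i _ => ?_
  obtain ⟨B₀, hB₀, u, v, hu, hPi⟩ := hP i
  have h2 := h B₀ hB₀ u v hu
  rw [hPi, card_image_of_injective _ (fun x y h => mul_left_cancel₀ hu (add_right_cancel h))]
  calc ‖c i‖ * ∑ a ∈ A, ‖∑ b ∈ B₀.image (fun b => u * b + v), χ (a + b)‖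
      ≤ ‖c i‖ * (η * (A.card * B₀.card)) := mul_le_mul_of_nonneg_left h2 (norm_nonneg _)
    _ = η * (A.card * (‖c i‖ * B₀.card)) := by ring

end built

open Classical in
/-- the exceptional characters, and what holds for the others -/
theorem copies (ε : ℝ) (hε : 0 < ε) (hε1 : ε ≤ 1) : ∃ C : ℝ, 1 ≤ C ∧ ∃ p₀ : ℕ, 3 ≤ p₀ ∧
    ∀ (p : ℕ) [Fact p.Prime], p₀ ≤ p → ∀ (η M : ℝ) (F : Finset (Finset (ZMod p))), 0 < η → η ≤ 1 →
      0 < M → (∀ B₀ ∈ F, C * η ^ (-C) * Real.log p ≤ B₀.card) →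
      ∃ Ex : Finset (DirichletCharacter ℂ p), (Ex.card : ℝ) ≤ F.card * (p : ℝ) ^ (1 + ε) / M ∧
        ((p : ℝ) ^ (1 / 2 + ε) ≤ M → ∀ χ ∈ Ex, χ = 1) ∧
        (∀ χ ∉ Ex, ∀ A : Finset (ZMod p), 2 * M ≤ η * A.card →
          ∀ (m : ℕ) (c : Fin m → ℂ) (P : Fin m → Finset (ZMod p)), (∀ i, IsCopy F (P i)) →
            ∑ a ∈ A, ‖∑ i, c i * ∑ b ∈ P i, χ (a + b)‖ ≤
              η * (A.card * ∑ i, ‖c i‖ * (P i).card)) ∧
        ∀ k : ℕ, k ≤ p →
          (((((univ : Finset (ZMod p)).powersetCard k).filter fun S =>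
            ∃ χ ∉ Ex, ∃ A : Finset (ZMod p), A ⊆ S ∧
              C * (1 + k * M * (p : ℝ) ^ (-1 + ε)) ≤ η * A.card ∧
              ∃ (m : ℕ) (c : Fin m → ℂ) (P : Fin m → Finset (ZMod p)), (∀ i, IsCopy F (P i)) ∧
                η * (A.card * ∑ i, ‖c i‖ * (P i).card) <
                  ∑ a ∈ A, ‖∑ i, c i * ∑ b ∈ P i, χ (a + b)‖).card : ℕ) : ℝ) ≤
            F.card * (p.choose k : ℝ) / p := by
  obtain ⟨C₁, hC₁, p₁, hp₁3, hpar⟩ := params ε hε hε1
  obtain ⟨C₂, hC₂, p₂, hp₂3, hpar2⟩ := params2 ε hε hε1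
  obtain ⟨C₃, hC₃⟩ : ∃ C₃ : ℝ, C₃ = 8 / ε := ⟨_, rfl⟩
  have hC₃8 : 8 ≤ C₃ := by
    rw [hC₃, le_div_iff₀ hε]
    linarith
  refine ⟨C₁ + C₂ + 2 * (C₃ + 1), by linarith, max p₁ p₂, hp₁3.trans (le_max_left _ _),
    fun p hpp hp η M F hη hη1 hM hF => ?_⟩
  have hp1 := (le_max_left p₁ p₂).trans hp
  have hp2 := (le_max_right p₁ p₂).trans hp
  have hlog := one_le_log (hp₁3.trans hp1)
  have hp1' : (1 : ℝ) ≤ p := by exact_mod_cast (by omega : 1 ≤ p)
  have hp0 : (0 : ℝ) < p := by linarith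
  set C : ℝ := C₁ + C₂ + 2 * (C₃ + 1) with hC
  have hηC : ∀ D : ℝ, 1 ≤ D → D ≤ C → ∀ B₀ ∈ F, D * η ^ (-D) * Real.log p ≤ B₀.card := by
    intro D hD1 hDC B₀ hB₀
    refine le_trans (mul_le_mul_of_nonneg_right ?_ (by linarith)) (hF B₀ hB₀)
    refine mul_le_mul hDC ?_ (by positivity) (by linarith)
    exact Real.rpow_le_rpow_of_exponent_ge hη hη1 (by linarith)
  have hcardp : ∀ B₀ : Finset (ZMod p), B₀.card ≤ p := by
    intro B₀
    have := card_le_univ B₀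
    rwa [ZMod.card] at this
  have hB1 : ∀ B₀ ∈ F, 1 ≤ B₀.card := by
    intro B₀ hB₀
    have h1 := hηC 1 le_rfl (by linarith) B₀ hB₀
    have h2 : (0 : ℝ) < B₀.card := lt_of_lt_of_le (by positivity) h1
    exact_mod_cast h2
  -- the exceptional set
  obtain ⟨Ex, hEx⟩ : ∃ Ex : Finset (DirichletCharacter ℂ p), Ex = univ.filter fun χ =>
      ∃ B₀ ∈ F, M ≤ ((lev χ B₀ (η * B₀.card / 2)).card : ℝ) := ⟨_, rfl⟩
  have hgood : ∀ χ ∉ Ex, ∀ B₀ ∈ F, ((lev χ B₀ (η * B₀.card / 2)).card : ℝ) < M := by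
    intro χ hχ B₀ hB₀
    by_contra hcon
    push Not at hcon
    apply hχ
    rw [hEx]
    exact mem_filter.2 ⟨mem_univ _, B₀, hB₀, hcon⟩
  refine ⟨Ex, ?_, ?_, ?_, ?_⟩
  · -- the number of exceptional characters
    rw [le_div_iff₀ hM]
    have hsub : Ex ⊆ F.biUnion fun B₀ => univ.filter fun χ : DirichletCharacter ℂ p =>
        M ≤ ((lev χ B₀ (η * B₀.card / 2)).card : ℝ) := by
      intro χ hχ
      rw [hEx] at hχ
      obtain ⟨B₀, hB₀, h1⟩ := (mem_filter.1 hχ).2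
      exact mem_biUnion.2 ⟨B₀, hB₀, mem_filter.2 ⟨mem_univ _, h1⟩⟩
    have h1 : ∀ B₀ ∈ F, (((univ.filter fun χ : DirichletCharacter ℂ p =>
        M ≤ ((lev χ B₀ (η * B₀.card / 2)).card : ℝ)).card : ℕ) : ℝ) * M ≤ (p : ℝ) ^ (1 + ε) := by
      intro B₀ hB₀
      obtain ⟨r, hr, hb⟩ := hpar2 p hp2 η B₀.card hη hη1 (hcardp B₀)
        (hηC C₂ hC₂ (by linarith) B₀ hB₀)
      have h2 := lev_char (p := p) B₀ (hB1 B₀ hB₀) r hr η hη
      calc (((univ.filter fun χ : DirichletCharacter ℂ p =>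
            M ≤ ((lev χ B₀ (η * B₀.card / 2)).card : ℝ)).card : ℕ) : ℝ) * M
          ≤ ∑ χ ∈ univ.filter (fun χ : DirichletCharacter ℂ p =>
              M ≤ ((lev χ B₀ (η * B₀.card / 2)).card : ℝ)),
                ((lev χ B₀ (η * B₀.card / 2)).card : ℝ) := by
            rw [← nsmul_eq_mul]
            exact card_nsmul_le_sum _ _ _ fun χ hχ => (mem_filter.1 hχ).2
        _ ≤ ∑ χ : DirichletCharacter ℂ p, ((lev χ B₀ (η * B₀.card / 2)).card : ℝ) :=
            sum_le_sum_of_subset_of_nonneg (filter_subset _ _) fun _ _ _ => Nat.cast_nonneg _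
        _ ≤ p * ((4 / η ^ 2) ^ r * ((3 * r / B₀.card) ^ r * p + r)) := h2
        _ ≤ p * (p : ℝ) ^ ε := mul_le_mul_of_nonneg_left hb hp0.le
        _ = (p : ℝ) ^ (1 + ε) := by rw [Real.rpow_add hp0, Real.rpow_one]
    calc (Ex.card : ℝ) * M ≤ (∑ B₀ ∈ F, (((univ.filter fun χ : DirichletCharacter ℂ p =>
          M ≤ ((lev χ B₀ (η * B₀.card / 2)).card : ℝ)).card : ℕ) : ℝ)) * M := by
          refine mul_le_mul_of_nonneg_right ?_ hM.le
          exact_mod_cast (card_le_card hsub).trans card_biUnion_le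
      _ ≤ ∑ _B₀ ∈ F, (p : ℝ) ^ (1 + ε) := by
          rw [sum_mul]
          exact sum_le_sum h1
      _ = F.card * (p : ℝ) ^ (1 + ε) := by rw [sum_const, nsmul_eq_mul]
  · intro hMp χ hχ
    rw [hEx] at hχ
    obtain ⟨B₀, hB₀, h1⟩ := (mem_filter.1 hχ).2
    by_contra hne
    obtain ⟨r, hr, hb⟩ := hpar p hp1 η B₀.card hη hη1 (hcardp B₀)
      (hηC C₁ hC₁ (by linarith) B₀ hB₀)
    have h2 := (lev_card χ hne B₀ (hB1 B₀ hB₀) r hr η hη).trans hb
    have h3 : (p : ℝ) ^ (1 / 2 + ε / 2) < (p : ℝ) ^ (1 / 2 + ε) :=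
      Real.rpow_lt_rpow_of_exponent_lt (by exact_mod_cast (by omega : 1 < p)) (by linarith)
    linarith
  · intro χ hχ A hA m c P hP
    refine atoms_bound χ F A η m c P hP fun B₀ hB₀ u v hu => ?_
    refine copy_bound χ B₀ hu v A η M hη.le ?_ hA
    refine le_trans ?_ (hgood χ hχ B₀ hB₀).le
    refine Nat.cast_le.2 (card_le_card_of_injOn (fun a => (a + v) * u⁻¹) ?_ ?_)
    · intro a ha
      exact (mem_filter.1 (mem_coe.1 ha)).2
    · intro a _ b _ h
      exact add_right_cancel (mul_right_cancel₀ (inv_ne_zero hu) h)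
  · intro k hk
    set K : ℝ := k * M * (p : ℝ) ^ (-1 + ε) with hK
    have hK0 : 0 ≤ K := by positivity
    obtain ⟨t, ht⟩ : ∃ t : ℕ, t = ⌈C₃ * (1 + K)⌉₊ := ⟨_, rfl⟩
    have ht1 : C₃ * (1 + K) ≤ t := by rw [ht]; exact Nat.le_ceil _
    have ht2 : (t : ℝ) ≤ (C₃ + 1) * (1 + K) := by
      have h1 : (t : ℝ) < C₃ * (1 + K) + 1 := by
        rw [ht]
        exact Nat.ceil_lt_add_one (by positivity)
      nlinarith
    have ht0 : (0 : ℝ) < t := lt_of_lt_of_le (by positivity) ht1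
    have ht1' : 1 ≤ t := by exact_mod_cast ht0
    -- the affine images of the sets of large values
    obtain ⟨img, himg⟩ : ∃ img : (DirichletCharacter ℂ p × Finset (ZMod p)) × (ZMod p × ZMod p) →
        Finset (ZMod p), img = fun w => (lev w.1.1 w.1.2 (η * w.1.2.card / 2)).image
          fun x => w.2.1 * x - w.2.2 := ⟨_, rfl⟩
    obtain ⟨W, hW⟩ : ∃ W : Finset ((DirichletCharacter ℂ p × Finset (ZMod p)) ×
        (ZMod p × ZMod p)), W = ((univ.filter fun χ => χ ∉ Ex) ×ˢ F) ×ˢ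
          (univ ×ˢ univ) := ⟨_, rfl⟩
    have hWc : (W.card : ℝ) ≤ F.card * (p : ℝ) ^ 3 := by
      have h1 : W.card ≤ (p * F.card) * (p * p) := by
        rw [hW, card_product, card_product, card_product, card_univ, ZMod.card]
        refine Nat.mul_le_mul_right _ (Nat.mul_le_mul_right _ ?_)
        exact (card_filter_le _ _).trans card_char
      calc (W.card : ℝ) ≤ (((p * F.card) * (p * p) : ℕ) : ℝ) := by exact_mod_cast h1
        _ = F.card * (p : ℝ) ^ 3 := by push_cast; ring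
    have hsub : (((univ : Finset (ZMod p)).powersetCard k).filter fun S =>
            ∃ χ ∉ Ex, ∃ A : Finset (ZMod p), A ⊆ S ∧ C * (1 + K) ≤ η * A.card ∧
              ∃ (m : ℕ) (c : Fin m → ℂ) (P : Fin m → Finset (ZMod p)), (∀ i, IsCopy F (P i)) ∧
                η * (A.card * ∑ i, ‖c i‖ * (P i).card) <
                  ∑ a ∈ A, ‖∑ i, c i * ∑ b ∈ P i, χ (a + b)‖) ⊆
        W.biUnion fun w => ((univ : Finset (ZMod p)).powersetCard k).filter fun S =>
          t ≤ (S ∩ img w).card := by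
      intro S hS
      obtain ⟨hSk, χ, hχ, A, hAS, hA, m, c, P, hP, hlarge⟩ := mem_filter.1 hS
      by_contra hcon
      have hno : ∀ B₀ ∈ F, ∀ u v : ZMod p, (S ∩ img ((χ, B₀), (u, v))).card < t := by
        intro B₀ hB₀ u v
        by_contra h1
        push Not at h1
        apply hcon
        rw [mem_biUnion]
        refine ⟨((χ, B₀), (u, v)), ?_, mem_filter.2 ⟨hSk, h1⟩⟩
        rw [hW]
        exact mem_product.2 ⟨mem_product.2 ⟨mem_filter.2 ⟨mem_univ _, hχ⟩, hB₀⟩,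
          mem_product.2 ⟨mem_univ _, mem_univ _⟩⟩
      refine absurd hlarge (not_lt.2 ?_)
      refine atoms_bound χ F A η m c P hP fun B₀ hB₀ u v hu => ?_
      refine copy_bound χ B₀ hu v A η t hη.le ?_ ?_
      · refine Nat.cast_le.2 (le_trans (card_le_card ?_) (hno B₀ hB₀ u v).le)
        intro a ha
        obtain ⟨h1, h2⟩ := mem_filter.1 ha
        rw [mem_inter, himg]
        refine ⟨hAS h1, mem_image.2 ⟨(a + v) * u⁻¹, h2, ?_⟩⟩
        simp only
        field_simp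
        ring
      · refine le_trans ?_ hA
        have h1 : 2 * ((C₃ + 1) * (1 + K)) ≤ C * (1 + K) := by
          rw [hC]
          nlinarith
        linarith
    have hterm : ∀ w ∈ W, (((((univ : Finset (ZMod p)).powersetCard k).filter fun S =>
          t ≤ (S ∩ img w).card).card : ℕ) : ℝ) ≤ (p.choose k : ℝ) * ((p : ℝ) ^ 4)⁻¹ := by
      intro w hw
      rw [hW] at hw
      obtain ⟨h1, -⟩ := mem_product.1 hw
      obtain ⟨h1, h2⟩ := mem_product.1 h1
      have h3 := hgood w.1.1 (mem_filter.1 h1).2 w.1.2 h2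
      have h4 : ((img w).card : ℝ) ≤ M := by
        refine le_trans ?_ h3.le
        rw [himg]
        exact_mod_cast card_image_le
      have h5 := hosts k t ht1' (img w) (by rw [ZMod.card]; exact hk)
      rw [ZMod.card] at h5
      refine h5.trans (mul_le_mul_of_nonneg_left ?_ (Nat.cast_nonneg _))
      have h6 : 3 * (((img w).card : ℝ) * k / p) / t ≤ (p : ℝ) ^ (-ε) := by
        rw [div_le_iff₀ ht0]
        have h7 : ((img w).card : ℝ) * k / p ≤ (p : ℝ) ^ (-ε) * K := by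
          have e : (p : ℝ) ^ (-ε) * K = M * k / p := by
            rw [hK, mul_left_comm, ← Real.rpow_add hp0,
              show -ε + (-1 + ε) = -1 by ring, Real.rpow_neg_one]
            ring
          rw [e]
          gcongr
        have h8 : (p : ℝ) ^ (-ε) * (C₃ * (1 + K)) ≤ (p : ℝ) ^ (-ε) * t :=
          mul_le_mul_of_nonneg_left ht1 (by positivity)
        have h9 : 0 ≤ (p : ℝ) ^ (-ε) * K := by positivity
        have h10 : 0 ≤ (p : ℝ) ^ (-ε) := by positivity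
        nlinarith
      calc (3 * (((img w).card : ℝ) * k / p) / t) ^ t ≤ ((p : ℝ) ^ (-ε)) ^ t :=
            pow_le_pow_left₀ (by positivity) h6 _
        _ = (p : ℝ) ^ (-ε * t) := by rw [← Real.rpow_natCast, ← Real.rpow_mul hp0.le]
        _ ≤ (p : ℝ) ^ (-((4 : ℕ) : ℝ)) := by
            refine Real.rpow_le_rpow_of_exponent_le hp1' ?_
            have h11 : ε * C₃ = 8 := by rw [hC₃]; field_simp
            have h12 : C₃ ≤ t := by nlinarith
            have h13 : ε * C₃ ≤ ε * t := mul_le_mul_of_nonneg_left h12 hε.le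
            push_cast
            linarith
        _ = ((p : ℝ) ^ 4)⁻¹ := by rw [Real.rpow_neg hp0.le, Real.rpow_natCast]
    have hcard := Nat.cast_le (α := ℝ).2 ((card_le_card hsub).trans card_biUnion_le)
    rw [Nat.cast_sum] at hcard
    refine hcard.trans ((sum_le_card_nsmul _ _ _ hterm).trans ?_)
    rw [nsmul_eq_mul]
    calc (W.card : ℝ) * ((p.choose k : ℝ) * ((p : ℝ) ^ 4)⁻¹)
        ≤ (F.card * (p : ℝ) ^ 3) * ((p.choose k : ℝ) * ((p : ℝ) ^ 4)⁻¹) :=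
          mul_le_mul_of_nonneg_right hWc (by positivity)
      _ = F.card * (p.choose k : ℝ) / p := by
          field_simp

end Pool.Agent.X222.PR
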