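import Pool.Agent.X222.PR.Copies

/-! # Disjoint unions of affine copies: power savings -/

set_option autoImplicit false

namespace Pool.Agent.X222.PR

open Finset

theorem sum_biUnion_atoms {p : ℕ} [Fact p.Prime] (χ : DirichletCharacter ℂ p) (A : Finset (ZMod p))
    (m : ℕ) (P : Fin m → Finset (ZMod p)) (hdis : ∀ i j, i ≠ j → Disjoint (P i) (P j)) (B : Finset (ZMod p))
    (hB : ∀ b, b ∈ B ↔ ∃ i, b ∈ P i) :
    (∑ a ∈ A, ‖∑ b ∈ B, χ (a + b)‖ = ∑ a ∈ A, ‖∑ i, (1 : ℂ) * ∑ b ∈ P i, χ (a + b)‖) ∧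
    (B.card : ℝ) = ∑ i, ‖(1 : ℂ)‖ * (P i).card := by
  classical
  have hBU : B = univ.biUnion P := by
    ext b
    rw [hB, mem_biUnion]
    simp
  have hpd : ((univ : Finset (Fin m)) : Set (Fin m)).PairwiseDisjoint P :=
    fun i _ j _ hij => hdis i j hij
  refine ⟨sum_congr rfl fun a _ => ?_, ?_⟩
  · rw [hBU, sum_biUnion hpd]
    simp
  · rw [hBU, card_biUnion fun i _ j _ hij => hdis i j hij]
    push_cast
    simp

open Classical in
theorem copies_power_one (ε : ℝ) (hε : 0 < ε) (hε1 : ε ≤ 1) : ∃ δ : ℝ, 0 < δ ∧ ∃ p₀ : ℕ, 3 ≤ p₀ ∧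
    ∀ (p : ℕ) [Fact p.Prime], p₀ ≤ p → ∀ (M : ℝ) (F : Finset (Finset (ZMod p))), 0 < M →
      (∀ B₀ ∈ F, (p : ℝ) ^ ε ≤ B₀.card) →
      ∃ Ex : Finset (DirichletCharacter ℂ p), (Ex.card : ℝ) ≤ F.card * (p : ℝ) ^ (1 + ε) / M ∧
        ((p : ℝ) ^ (1 / 2 + ε) ≤ M → ∀ χ ∈ Ex, χ = 1) ∧
        (∀ χ ∉ Ex, ∀ A B : Finset (ZMod p), (p : ℝ) ^ ε * M ≤ A.card →
          ∀ (m : ℕ) (P : Fin m → Finset (ZMod p)), (∀ i, IsCopy F (P i)) →
            (∀ i j, i ≠ j → Disjoint (P i) (P j)) → (∀ b, b ∈ B ↔ ∃ i, b ∈ P i) →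
            ∑ a ∈ A, ‖∑ b ∈ B, χ (a + b)‖ ≤ (p : ℝ) ^ (-δ) * (A.card * B.card)) ∧
        ∀ k : ℕ, k ≤ p →
          (((((univ : Finset (ZMod p)).powersetCard k).filter fun S =>
            ∃ χ ∉ Ex, ∃ A B : Finset (ZMod p), A ⊆ S ∧ (p : ℝ) ^ ε * (1 + k * M / p) ≤ A.card ∧
              ∃ (m : ℕ) (P : Fin m → Finset (ZMod p)), (∀ i, IsCopy F (P i)) ∧
                (∀ i j, i ≠ j → Disjoint (P i) (P j)) ∧ (∀ b, b ∈ B ↔ ∃ i, b ∈ P i) ∧
                (p : ℝ) ^ (-δ) * (A.card * B.card) < ∑ a ∈ A, ‖∑ b ∈ B, χ (a + b)‖).card : ℕ) :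
                  ℝ) ≤ F.card * (p.choose k : ℝ) / p := by
  obtain ⟨C, hC, p₁, hp₁3, h⟩ := copies (ε / 2) (by positivity) (by linarith)
  obtain ⟨p₂, -, hp₂⟩ := log_le_rpow (2 * C) (ε / 4) (by positivity)
  refine ⟨ε / (4 * C), by positivity, max p₁ p₂, hp₁3.trans (le_max_left _ _),
    fun p hpp hp M F hM hF => ?_⟩
  have hp1 := (le_max_left p₁ p₂).trans hp
  have hp2 := (le_max_right p₁ p₂).trans hp
  have hlog := one_le_log (hp₁3.trans hp1)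
  have hb := hp₂ p hp2
  have hp1' : (1 : ℝ) ≤ p := by exact_mod_cast (by omega : 1 ≤ p)
  have hp0 : (0 : ℝ) < p := by linarith
  have hδ0 : 0 < ε / (4 * C) := by positivity
  have hδ1 : ε / (4 * C) ≤ ε / 4 := by
    apply div_le_div_of_nonneg_left hε.le (by norm_num)
    linarith
  have hη1 : (p : ℝ) ^ (-(ε / (4 * C))) ≤ 1 :=
    Real.rpow_le_one_of_one_le_of_nonpos hp1' (by linarith)
  have hq : (p : ℝ) ^ (-(ε / 4)) ≤ (p : ℝ) ^ (-(ε / (4 * C))) :=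
    Real.rpow_le_rpow_of_exponent_le hp1' (by linarith)
  have hCp : 2 * C ≤ (p : ℝ) ^ (ε / 4) := by nlinarith
  have e : ((p : ℝ) ^ (-(ε / (4 * C)))) ^ (-C) = (p : ℝ) ^ (ε / 4) := by
    rw [← Real.rpow_mul hp0.le]
    congr 1
    field_simp
  obtain ⟨Ex, h1, h2, h3, h4⟩ := h p hp1 ((p : ℝ) ^ (-(ε / (4 * C)))) M F (by positivity) hη1 hM
    (fun B₀ hB₀ => by
      rw [e]
      refine le_trans ?_ (hF B₀ hB₀)
      calc C * (p : ℝ) ^ (ε / 4) * Real.log p ≤ (2 * C * (1 + Real.log p)) * (p : ℝ) ^ (ε / 4) := by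
            have : 0 < C * (p : ℝ) ^ (ε / 4) := by positivity
            nlinarith
        _ ≤ (p : ℝ) ^ (ε / 4) * (p : ℝ) ^ (ε / 4) := mul_le_mul_of_nonneg_right hb (by positivity)
        _ = (p : ℝ) ^ (ε / 2) := by rw [← Real.rpow_add hp0]; congr 1; ring
        _ ≤ (p : ℝ) ^ ε := Real.rpow_le_rpow_of_exponent_le hp1' (by linarith))
  have key : ∀ x y : ℝ, 0 ≤ x → (p : ℝ) ^ ε * x ≤ y →
      (p : ℝ) ^ (3 * ε / 4) * x ≤ (p : ℝ) ^ (-(ε / (4 * C))) * y := by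
    intro x y hx hxy
    calc (p : ℝ) ^ (3 * ε / 4) * x = (p : ℝ) ^ (-(ε / 4)) * ((p : ℝ) ^ ε * x) := by
          rw [← mul_assoc, ← Real.rpow_add hp0]
          congr 2
          ring
      _ ≤ (p : ℝ) ^ (-(ε / (4 * C))) * y :=
          mul_le_mul hq hxy (by positivity) (by positivity)
  refine ⟨Ex, h1.trans ?_, fun hM' => h2 (le_trans ?_ hM'), ?_, fun k hk => ?_⟩
  · refine div_le_div_of_nonneg_right (mul_le_mul_of_nonneg_left ?_ (Nat.cast_nonneg _)) hM.le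
    exact Real.rpow_le_rpow_of_exponent_le hp1' (by linarith)
  · exact Real.rpow_le_rpow_of_exponent_le hp1' (by linarith)
  · intro χ hχ A B hA m P hP hdis hB
    obtain ⟨e1, e2⟩ := sum_biUnion_atoms χ A m P hdis B hB
    rw [e1, e2]
    refine h3 χ hχ A ?_ m (fun _ => 1) P hP
    refine le_trans ?_ (key M A.card hM.le hA)
    refine mul_le_mul_of_nonneg_right ?_ hM.le
    calc (2 : ℝ) ≤ 2 * C := by linarith
      _ ≤ (p : ℝ) ^ (ε / 4) := hCp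
      _ ≤ _ := Real.rpow_le_rpow_of_exponent_le hp1' (by linarith)
  · refine le_trans ?_ (h4 k hk)
    refine Nat.cast_le.2 (card_le_card ?_)
    intro S hS
    obtain ⟨hSk, χ, hχ, A, B, hAS, hA, m, P, hP, hdis, hB, hlarge⟩ := mem_filter.1 hS
    obtain ⟨e1, e2⟩ := sum_biUnion_atoms χ A m P hdis B hB
    rw [e1, e2] at hlarge
    refine mem_filter.2 ⟨hSk, χ, hχ, A, hAS, ?_, m, fun _ => 1, P, hP, hlarge⟩
    refine le_trans ?_ (key _ _ (by positivity) hA)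
    have h5 : (k : ℝ) * M * (p : ℝ) ^ (-1 + ε / 2) = (p : ℝ) ^ (ε / 2) * (k * M / p) := by
      rw [Real.rpow_add hp0, Real.rpow_neg_one]
      ring
    rw [h5]
    have h6 : 1 ≤ (p : ℝ) ^ (ε / 2) := Real.one_le_rpow hp1' (by positivity)
    have h7 : 0 ≤ (k : ℝ) * M / p := by positivity
    calc C * (1 + (p : ℝ) ^ (ε / 2) * (k * M / p))
        ≤ (2 * C) * ((p : ℝ) ^ (ε / 2) * (1 + k * M / p)) := by
          have h8 : 0 ≤ C * ((p : ℝ) ^ (ε / 2) - 1) := mul_nonneg (by linarith) (by linarith)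
          have h9 : 0 ≤ C * ((p : ℝ) ^ (ε / 2) * (k * M / p)) := by positivity
          have h10 : 0 ≤ C * (p : ℝ) ^ (ε / 2) := by positivity
          linear_combination h8 + h9 + h10
      _ ≤ (p : ℝ) ^ (ε / 4) * ((p : ℝ) ^ (ε / 2) * (1 + k * M / p)) :=
          mul_le_mul_of_nonneg_right hCp (by positivity)
      _ = (p : ℝ) ^ (3 * ε / 4) * (1 + k * M / p) := by
          rw [← mul_assoc, ← Real.rpow_add hp0]
          congr 2
          ring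

end Pool.Agent.X222.PR
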