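import Mathlib

/-! # Random hosts: counting and sampling -/

set_option autoImplicit false

namespace Pool.Agent.X222.PR

open Finset

theorem choose_ratio (p k : ℕ) (hkp : k ≤ p) (t : ℕ) (ht : t ≤ k) :
    (p - t).choose (k - t) * p ^ t ≤ p.choose k * k ^ t := by
  induction t with
  | zero => simp
  | succ t ih =>
    have ih := ih (by omega)
    obtain ⟨q, hq⟩ : ∃ q, p = q + t + 1 := ⟨p - t - 1, by omega⟩
    obtain ⟨l, hl⟩ : ∃ l, k = l + t + 1 := ⟨k - t - 1, by omega⟩
    have e1 : p - t = q + 1 := by omega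
    have e2 : k - t = l + 1 := by omega
    have e3 : p - (t + 1) = q := by omega
    have e4 : k - (t + 1) = l := by omega
    rw [e1, e2] at ih
    rw [e3, e4]
    have h1 : (q + 1) * q.choose l = (q + 1).choose (l + 1) * (l + 1) := Nat.add_one_mul_choose_eq q l
    have h2 : (l + 1) * p ≤ k * (q + 1) := by
      rw [hq, hl]
      have : l ≤ q := by omega
      nlinarith
    refine le_of_mul_le_mul_left (a := q + 1) ?_ (Nat.succ_pos q)
    calc (q + 1) * (q.choose l * p ^ (t + 1)) = ((q + 1) * q.choose l) * p ^ (t + 1) := by ring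
      _ = ((q + 1).choose (l + 1) * p ^ t) * ((l + 1) * p) := by rw [h1]; ring
      _ ≤ (p.choose k * k ^ t) * (k * (q + 1)) := Nat.mul_le_mul ih h2
      _ = (q + 1) * (p.choose k * k ^ (t + 1)) := by ring

section hosts

variable {α : Type*} [Fintype α] [DecidableEq α]

theorem card_hosts (k t : ℕ) (L : Finset α) :
    (((univ : Finset α).powersetCard k).filter fun S => t ≤ (S ∩ L).card).card ≤
      L.card.choose t * (Fintype.card α - t).choose (k - t) := by
  have hsub : (((univ : Finset α).powersetCard k).filter fun S => t ≤ (S ∩ L).card) ⊆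
      (L.powersetCard t).biUnion fun T =>
        ((univ : Finset α).powersetCard k).filter fun S => T ⊆ S := by
    intro S hS
    rw [mem_filter] at hS
    obtain ⟨T, hT, hTc⟩ := exists_subset_card_eq hS.2
    rw [mem_biUnion]
    refine ⟨T, mem_powersetCard.2 ⟨fun x hx => (mem_inter.1 (hT hx)).2, hTc⟩, ?_⟩
    exact mem_filter.2 ⟨hS.1, fun x hx => (mem_inter.1 (hT hx)).1⟩
  refine (card_le_card hsub).trans (card_biUnion_le.trans ?_)
  have e : ∀ T ∈ L.powersetCard t,
      (((univ : Finset α).powersetCard k).filter fun S => T ⊆ S).card ≤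
        (Fintype.card α - t).choose (k - t) := by
    intro T hT
    rw [mem_powersetCard] at hT
    have h1 : ((univ \ T).powersetCard (k - t)).card = (Fintype.card α - t).choose (k - t) := by
      rw [card_powersetCard, card_sdiff_of_subset (subset_univ T), card_univ, hT.2]
    rw [← h1]
    refine card_le_card_of_injOn (fun S => S \ T) ?_ ?_
    · intro S hS
      have hS := mem_filter.1 (mem_coe.1 hS)
      rw [mem_powersetCard] at hS
      rw [mem_coe, mem_powersetCard]
      refine ⟨sdiff_subset_sdiff (subset_univ S) (Subset.refl T), ?_⟩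
      rw [card_sdiff_of_subset hS.2, hS.1.2, hT.2]
    · intro S hS S' hS' heq
      have hS := mem_filter.1 (mem_coe.1 hS)
      have hS' := mem_filter.1 (mem_coe.1 hS')
      have h2 : S \ T = S' \ T := heq
      rw [← sdiff_union_of_subset hS.2, ← sdiff_union_of_subset hS'.2, h2]
  refine (sum_le_sum e).trans (le_of_eq ?_)
  rw [sum_const, card_powersetCard, smul_eq_mul]

theorem pow_div_fact (x : ℝ) (hx : 0 ≤ x) (t : ℕ) (ht : 1 ≤ t) :
    x ^ t / (t.factorial : ℝ) ≤ (3 * x / t) ^ t := by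
  have ht0 : (0 : ℝ) < t := by exact_mod_cast ht
  have h3 : (t : ℝ) ^ t / (t.factorial : ℝ) ≤ 3 ^ t := by
    refine (Real.pow_div_factorial_le_exp (t : ℝ) ht0.le t).trans ?_
    have h4 : Real.exp (t : ℝ) = Real.exp 1 ^ t := by
      rw [← Real.exp_nat_mul, mul_one]
    rw [h4]
    exact pow_le_pow_left₀ (Real.exp_pos 1).le
      (le_trans Real.exp_one_lt_d9.le (by norm_num)) _
  have hf : (0 : ℝ) < (t.factorial : ℝ) := by exact_mod_cast t.factorial_pos
  rw [div_le_iff₀ hf] at h3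
  rw [div_pow, mul_pow, div_le_div_iff₀ hf (by positivity)]
  calc x ^ t * (t : ℝ) ^ t ≤ x ^ t * (3 ^ t * (t.factorial : ℝ)) :=
        mul_le_mul_of_nonneg_left h3 (by positivity)
    _ = 3 ^ t * x ^ t * (t.factorial : ℝ) := by ring

/-- few sets of size `k` have many elements in a small set -/
theorem hosts (k t : ℕ) (ht : 1 ≤ t) (L : Finset α) (hk : k ≤ Fintype.card α) :
    (((((univ : Finset α).powersetCard k).filter fun S => t ≤ (S ∩ L).card).card : ℕ) : ℝ) ≤
      ((Fintype.card α).choose k : ℝ) *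
        (3 * (L.card * k / Fintype.card α) / t) ^ t := by
  set p := Fintype.card α with hp
  rcases lt_or_ge k t with h | h
  · have e : (((univ : Finset α).powersetCard k).filter fun S => t ≤ (S ∩ L).card) = ∅ := by
      refine filter_false_of_mem fun S hS => ?_
      rw [mem_powersetCard] at hS
      have := card_le_card (inter_subset_left (s₁ := S) (s₂ := L))
      omega
    rw [e]
    simp only [card_empty, Nat.cast_zero]
    positivity
  · have hp0 : (0 : ℝ) < p := by exact_mod_cast (by omega : 0 < p)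
    have h1 := card_hosts k t L
    have h2 := choose_ratio p k hk t h
    have h3 : (((p - t).choose (k - t) : ℕ) : ℝ) ≤ (p.choose k : ℝ) * (k : ℝ) ^ t / (p : ℝ) ^ t := by
      rw [le_div_iff₀ (by positivity)]
      exact_mod_cast h2
    have h4 : ((L.card.choose t : ℕ) : ℝ) ≤ (L.card : ℝ) ^ t / (t.factorial : ℝ) :=
      Nat.choose_le_pow_div t L.card
    calc (((((univ : Finset α).powersetCard k).filter fun S => t ≤ (S ∩ L).card).card : ℕ) : ℝ)
        ≤ ((L.card.choose t * (p - t).choose (k - t) : ℕ) : ℝ) := by exact_mod_cast h1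
      _ = (L.card.choose t : ℝ) * ((p - t).choose (k - t) : ℝ) := by push_cast; ring
      _ ≤ ((L.card : ℝ) ^ t / (t.factorial : ℝ)) *
            ((p.choose k : ℝ) * (k : ℝ) ^ t / (p : ℝ) ^ t) :=
          mul_le_mul h4 h3 (Nat.cast_nonneg _) (by positivity)
      _ = (p.choose k : ℝ) * ((L.card * k / p : ℝ) ^ t / (t.factorial : ℝ)) := by
          rw [div_pow, mul_pow]; ring
      _ ≤ _ := mul_le_mul_of_nonneg_left (pow_div_fact _ (by positivity) t ht) (Nat.cast_nonneg _)

end hosts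

section sampling

variable {ι β : Type*} [DecidableEq β]

theorem sampling_aux (A : Finset ι) (F : ι → β → ℂ) (n : ℕ) : ∀ (m : ℕ) (B : Finset β),
    B.card = n + m → ∃ B' ⊆ B, B'.card = n ∧
      (n : ℝ) * ∑ a ∈ A, ‖∑ b ∈ B, F a b‖ ≤ B.card * ∑ a ∈ A, ‖∑ b ∈ B', F a b‖ := by
  intro m
  induction m with
  | zero =>
    intro B hB
    exact ⟨B, Subset.refl B, by omega, by rw [hB]; simp⟩
  | succ m ih =>
    intro B hB
    have hne : B.Nonempty := by rw [← card_pos]; omega
    have key : ∑ _b0 ∈ B, ((n + m : ℕ) : ℝ) * ∑ a ∈ A, ‖∑ b ∈ B, F a b‖ ≤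
        ∑ b0 ∈ B, (B.card : ℝ) * ∑ a ∈ A, ‖∑ b ∈ B.erase b0, F a b‖ := by
      rw [sum_const, nsmul_eq_mul, ← mul_sum]
      refine mul_le_mul_of_nonneg_left ?_ (Nat.cast_nonneg _)
      rw [sum_comm, mul_sum]
      refine sum_le_sum fun a _ => ?_
      have e : ∑ b0 ∈ B, ∑ b ∈ B.erase b0, F a b = ((n + m : ℕ) : ℂ) * ∑ b ∈ B, F a b := by
        rw [sum_congr rfl fun b0 hb0 => sum_erase_eq_sub (f := F a) hb0, sum_sub_distrib,
          sum_const, hB, nsmul_eq_mul]
        push_cast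
        ring
      have e2 := norm_sum_le B fun b0 => ∑ b ∈ B.erase b0, F a b
      rw [e, norm_mul, Complex.norm_natCast] at e2
      exact e2
    obtain ⟨b0, hb0, h⟩ := exists_le_of_sum_le hne key
    obtain ⟨B', hB', hc, h2⟩ := ih (B.erase b0) (by rw [card_erase_of_mem hb0]; omega)
    refine ⟨B', hB'.trans (erase_subset _ _), hc, ?_⟩
    rw [card_erase_of_mem hb0, hB] at h2
    rw [hB] at h ⊢
    have e3 : n + (m + 1) - 1 = n + m := by omega
    rw [e3] at h2
    set V := ∑ a ∈ A, ‖∑ b ∈ B, F a b‖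
    set V0 := ∑ a ∈ A, ‖∑ b ∈ B.erase b0, F a b‖
    set V' := ∑ a ∈ A, ‖∑ b ∈ B', F a b‖ with hV'
    have hV'0 : 0 ≤ V' := sum_nonneg fun _ _ => norm_nonneg _
    rcases Nat.eq_zero_or_pos (n + m) with h0 | h0
    · have : n = 0 := by omega
      rw [this]
      simp only [Nat.cast_zero, zero_mul]
      positivity
    · have h0' : (0 : ℝ) < ((n + m : ℕ) : ℝ) := by exact_mod_cast h0
      refine le_of_mul_le_mul_left (a := ((n + m : ℕ) : ℝ)) ?_ h0'
      calc ((n + m : ℕ) : ℝ) * ((n : ℝ) * V) = n * (((n + m : ℕ) : ℝ) * V) := by ring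
        _ ≤ n * (((n + (m + 1) : ℕ) : ℝ) * V0) := mul_le_mul_of_nonneg_left h (Nat.cast_nonneg _)
        _ = ((n + (m + 1) : ℕ) : ℝ) * (n * V0) := by ring
        _ ≤ ((n + (m + 1) : ℕ) : ℝ) * (((n + m : ℕ) : ℝ) * V') :=
            mul_le_mul_of_nonneg_left h2 (Nat.cast_nonneg _)
        _ = _ := by ring

theorem sampling (A : Finset ι) (F : ι → β → ℂ) (n : ℕ) (B : Finset β) (hn : n ≤ B.card) :
    ∃ B' ⊆ B, B'.card = n ∧
      (n : ℝ) * ∑ a ∈ A, ‖∑ b ∈ B, F a b‖ ≤ B.card * ∑ a ∈ A, ‖∑ b ∈ B', F a b‖ :=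
  sampling_aux A F n (B.card - n) B (by omega)

open Classical in
/-- a biased pair has a small subset of one side whose large values capture much of the other -/
theorem capture (A : Finset ι) (F : ι → β → ℂ) (hF : ∀ a b, ‖F a b‖ ≤ 1) (n : ℕ) (hn1 : 1 ≤ n)
    (B : Finset β) (hn : n ≤ B.card) (η : ℝ) (hη : 0 ≤ η)
    (h : η * (A.card * B.card) < ∑ a ∈ A, ‖∑ b ∈ B, F a b‖) :
    ∃ B' ⊆ B, B'.card = n ∧
      η * A.card / 2 ≤ ((A.filter fun a => η * n / 2 ≤ ‖∑ b ∈ B', F a b‖).card : ℝ) := by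
  obtain ⟨B', hB', hc, h1⟩ := sampling A F n B hn
  refine ⟨B', hB', hc, ?_⟩
  have hB0 : (0 : ℝ) < B.card := by exact_mod_cast (by omega : 0 < B.card)
  have hn0 : (0 : ℝ) < n := by exact_mod_cast hn1
  have h2 : η * (A.card * n) < ∑ a ∈ A, ‖∑ b ∈ B', F a b‖ := by
    refine lt_of_mul_lt_mul_left (a := (B.card : ℝ)) ?_ hB0.le
    calc (B.card : ℝ) * (η * (A.card * n)) = n * (η * (A.card * B.card)) := by ring
      _ < n * ∑ a ∈ A, ‖∑ b ∈ B, F a b‖ := mul_lt_mul_of_pos_left h hn0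
      _ ≤ _ := h1
  have h3 : ∑ a ∈ A, ‖∑ b ∈ B', F a b‖ ≤
      ((A.filter fun a => η * n / 2 ≤ ‖∑ b ∈ B', F a b‖).card : ℝ) * n + A.card * (η * n / 2) := by
    rw [← sum_filter_add_sum_filter_not A fun a => η * n / 2 ≤ ‖∑ b ∈ B', F a b‖]
    refine add_le_add ?_ ?_
    · rw [← nsmul_eq_mul]
      refine sum_le_card_nsmul _ _ _ fun a _ => ?_
      refine (norm_sum_le _ _).trans ((sum_le_card_nsmul _ _ 1 fun b _ => hF a b).trans ?_)
      rw [hc, nsmul_eq_mul, mul_one]
    · have h4 : ∑ a ∈ A.filter (fun a => ¬ η * n / 2 ≤ ‖∑ b ∈ B', F a b‖), ‖∑ b ∈ B', F a b‖ ≤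
          (A.filter (fun a => ¬ η * n / 2 ≤ ‖∑ b ∈ B', F a b‖)).card • (η * n / 2) :=
        sum_le_card_nsmul _ _ _ fun a ha => (not_le.1 (mem_filter.1 ha).2).le
      refine h4.trans ?_
      rw [nsmul_eq_mul]
      exact mul_le_mul_of_nonneg_right (by exact_mod_cast card_filter_le _ _) (by positivity)
  have h5 : η * (A.card * n) < ((A.filter fun a => η * n / 2 ≤ ‖∑ b ∈ B', F a b‖).card : ℝ) * n +
      A.card * (η * n / 2) := lt_of_lt_of_le h2 h3
  refine le_of_mul_le_mul_right (a := (n : ℝ)) ?_ hn0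
  nlinarith

end sampling

end Pool.Agent.X222.PR
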