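import Pool.Agent.X222.PR.Pert

/-! # Difference sums over sets evenly covered by translates of random points -/

set_option autoImplicit false

namespace Pool.Agent.X222.PR

open Finset

section cover

variable {p : ℕ} [Fact p.Prime]

theorem cover_sum {k : ℕ} (g : ZMod p → Fin k → ZMod p) (I : Finset (Fin k))
    (A X : Finset (ZMod p)) (f : ZMod p → ℝ) (hf : ∀ z, 0 ≤ f z) (ρ : ℝ)
    (h : ∀ a ∈ A, ρ ≤ (((X ×ˢ I).filter fun w => g w.1 w.2 = a).card : ℝ)) :
    ρ * ∑ a ∈ A, f a ≤ ∑ y ∈ X, ∑ i ∈ I, f (g y i) := by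
  classical
  rw [← sum_product']
  have h1 : ∑ w ∈ (X ×ˢ I).filter (fun w => g w.1 w.2 ∈ A), f (g w.1 w.2) ≤
      ∑ w ∈ X ×ˢ I, f (g w.1 w.2) :=
    sum_le_sum_of_subset_of_nonneg (filter_subset _ _) fun _ _ _ => hf _
  refine le_trans ?_ h1
  rw [← sum_fiberwise_of_maps_to (s := (X ×ˢ I).filter fun w => g w.1 w.2 ∈ A) (t := A)
    (g := fun w => g w.1 w.2) (fun w hw => (mem_filter.1 hw).2), mul_sum]
  refine sum_le_sum fun a ha => ?_
  have e : ∑ w ∈ ((X ×ˢ I).filter fun w => g w.1 w.2 ∈ A).filter (fun w => g w.1 w.2 = a),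
      f (g w.1 w.2) = (((X ×ˢ I).filter fun w => g w.1 w.2 = a).card : ℝ) * f a := by
    have e1 : ((X ×ˢ I).filter fun w => g w.1 w.2 ∈ A).filter (fun w => g w.1 w.2 = a) =
        (X ×ˢ I).filter fun w => g w.1 w.2 = a := by
      ext w
      simp only [mem_filter]
      constructor
      · rintro ⟨⟨h1, -⟩, h2⟩
        exact ⟨h1, h2⟩
      · rintro ⟨h1, h2⟩
        exact ⟨⟨h1, h2 ▸ ha⟩, h2⟩
    rw [e1, ← nsmul_eq_mul, ← sum_const]
    refine sum_congr rfl fun w hw => ?_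
    rw [(mem_filter.1 hw).2]
  rw [e]
  exact mul_le_mul_of_nonneg_right (h a ha) (hf a)

theorem shift_plus (χ : DirichletCharacter ℂ p) (y z : ZMod p) (B : Finset (ZMod p)) :
    ∑ b ∈ B, χ (y + z - b) = ∑ b ∈ B.image (fun b => y - b), χ (z + b) := by
  classical
  rw [sum_image (fun a _ b _ h => sub_right_injective h)]
  refine sum_congr rfl fun b _ => ?_
  congr 1
  ring

theorem shift_minus (χ : DirichletCharacter ℂ p) (y z : ZMod p) (B : Finset (ZMod p)) :
    ‖∑ b ∈ B, χ (y - z - b)‖ ≤ ‖∑ b ∈ B.image (fun b => b - y), χ (z + b)‖ := by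
  classical
  rw [sum_image (fun a _ b _ h => sub_left_injective h)]
  have e : ∑ b ∈ B, χ (y - z - b) = χ (-1) * ∑ b ∈ B, χ (z + (b - y)) := by
    rw [mul_sum]
    refine sum_congr rfl fun b _ => ?_
    rw [← map_mul]
    congr 1
    ring
  rw [e, norm_mul]
  have h1 : ‖χ (-1)‖ ≤ 1 := χ.norm_le_one _
  exact mul_le_of_le_one_left (norm_nonneg _) h1

/-- `A` is covered evenly by translates of the points `x i`, `i ∈ I` -/
def Cov {k : ℕ} (x : Fin k → ZMod p) (I : Finset (Fin k)) (A : Finset (ZMod p)) (σ : ℝ) : Prop :=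
  (∃ X : Finset (ZMod p), (∀ a ∈ A, ∃ y ∈ X, ∃ i ∈ I, a = y + x i) ∧
    (X.card : ℝ) * I.card ≤ σ * A.card) ∨
  (((A ×ˢ I).image fun w => w.1 + x w.2).card : ℝ) ≤ σ * A.card ∨
  (((A ×ˢ I).image fun w => w.1 - x w.2).card : ℝ) ≤ σ * A.card

theorem good_cover (χ : DirichletCharacter ℂ p) {k : ℕ} (x : Fin k → ZMod p) (I : Finset (Fin k))
    (hI : 1 ≤ I.card) (A : Finset (ZMod p)) (σ η β : ℝ) (hη : 0 ≤ η)
    (hgood : ∀ B : Finset (ZMod p), β ≤ B.card →
      ∑ i ∈ I, ‖∑ b ∈ B, χ (x i + b)‖ ≤ η * (I.card * B.card))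
    (hcov : Cov x I A σ) (B : Finset (ZMod p)) (hB : β ≤ B.card) :
    ∑ a ∈ A, ‖∑ b ∈ B, χ (a - b)‖ ≤ η * σ * (A.card * B.card) := by
  classical
  have hI0 : (0 : ℝ) < I.card := by exact_mod_cast hI
  have hplus : ∀ y : ZMod p, ∑ i ∈ I, ‖∑ b ∈ B, χ (y + x i - b)‖ ≤ η * (I.card * B.card) := by
    intro y
    have h1 := hgood (B.image fun b => y - b) (by
      rw [card_image_of_injective _ (fun a b h => sub_right_injective h)]
      exact hB)
    rw [card_image_of_injective _ (fun a b h => sub_right_injective h)] at h1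
    refine le_trans (le_of_eq ?_) h1
    exact sum_congr rfl fun i _ => by rw [shift_plus]
  have hminus : ∀ y : ZMod p, ∑ i ∈ I, ‖∑ b ∈ B, χ (y - x i - b)‖ ≤ η * (I.card * B.card) := by
    intro y
    have h1 := hgood (B.image fun b => b - y) (by
      rw [card_image_of_injective _ (fun a b h => sub_left_injective h)]
      exact hB)
    rw [card_image_of_injective _ (fun a b h => sub_left_injective h)] at h1
    exact le_trans (sum_le_sum fun i _ => shift_minus χ y (x i) B) h1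
  rcases hcov with ⟨X, hX, hc⟩ | hc | hc
  · have h1 := cover_sum (fun y i => y + x i) I A X (fun z => ‖∑ b ∈ B, χ (z - b)‖)
      (fun z => norm_nonneg _) 1 (by
        intro a ha
        obtain ⟨y, hy, i, hi, e⟩ := hX a ha
        have : 1 ≤ ((X ×ˢ I).filter fun w => w.1 + x w.2 = a).card :=
          card_pos.2 ⟨(y, i), mem_filter.2 ⟨mem_product.2 ⟨hy, hi⟩, e.symm⟩⟩
        exact_mod_cast this)
    rw [one_mul] at h1
    refine h1.trans ((sum_le_card_nsmul _ _ _ fun y _ => hplus y).trans ?_)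
    rw [nsmul_eq_mul]
    calc (X.card : ℝ) * (η * (I.card * B.card)) = η * ((X.card * I.card) * B.card) := by ring
      _ ≤ η * ((σ * A.card) * B.card) := by gcongr
      _ = _ := by ring
  · have h1 := cover_sum (fun y i => y - x i) I A ((A ×ˢ I).image fun w => w.1 + x w.2)
      (fun z => ‖∑ b ∈ B, χ (z - b)‖) (fun z => norm_nonneg _) I.card (by
        intro a ha
        have h2 : I.card ≤ ((((A ×ˢ I).image fun w => w.1 + x w.2) ×ˢ I).filter fun w =>
            w.1 - x w.2 = a).card := by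
          refine card_le_card_of_injOn (fun i => (a + x i, i)) ?_ ?_
          · intro i hi
            rw [mem_coe, mem_filter, mem_product]
            exact ⟨⟨mem_image.2 ⟨(a, i), mem_product.2 ⟨ha, hi⟩, rfl⟩, hi⟩, by simp⟩
          · intro i _ j _ h
            exact (Prod.ext_iff.1 h).2
        exact_mod_cast h2)
    have h2 : (I.card : ℝ) * ∑ a ∈ A, ‖∑ b ∈ B, χ (a - b)‖ ≤
        I.card * (η * σ * (A.card * B.card)) := by
      refine h1.trans ((sum_le_card_nsmul _ _ _ fun y _ => hminus y).trans ?_)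
      rw [nsmul_eq_mul]
      calc _ ≤ (σ * A.card) * (η * (I.card * B.card)) := by gcongr
        _ = _ := by ring
    exact le_of_mul_le_mul_left h2 hI0
  · have h1 := cover_sum (fun y i => y + x i) I A ((A ×ˢ I).image fun w => w.1 - x w.2)
      (fun z => ‖∑ b ∈ B, χ (z - b)‖) (fun z => norm_nonneg _) I.card (by
        intro a ha
        have h2 : I.card ≤ ((((A ×ˢ I).image fun w => w.1 - x w.2) ×ˢ I).filter fun w =>
            w.1 + x w.2 = a).card := by
          refine card_le_card_of_injOn (fun i => (a - x i, i)) ?_ ?_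
          · intro i hi
            rw [mem_coe, mem_filter, mem_product]
            exact ⟨⟨mem_image.2 ⟨(a, i), mem_product.2 ⟨ha, hi⟩, rfl⟩, hi⟩, by simp⟩
          · intro i _ j _ h
            exact (Prod.ext_iff.1 h).2
        exact_mod_cast h2)
    have h2 : (I.card : ℝ) * ∑ a ∈ A, ‖∑ b ∈ B, χ (a - b)‖ ≤
        I.card * (η * σ * (A.card * B.card)) := by
      refine h1.trans ((sum_le_card_nsmul _ _ _ fun y _ => hplus y).trans ?_)
      rw [nsmul_eq_mul]
      calc _ ≤ (σ * A.card) * (η * (I.card * B.card)) := by gcongr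
        _ = _ := by ring
    exact le_of_mul_le_mul_left h2 hI0

end cover

open Classical in
/-- difference sums -/
theorem diff (ε : ℝ) (hε : 0 < ε) : ∃ τ : ℝ, 0 < τ ∧ ∃ p₀ : ℕ,
    ∀ (p : ℕ) [Fact p.Prime], p₀ ≤ p → ∀ (k : ℕ) (R : Fin k → Finset (ZMod p)) (M : ℝ), 1 ≤ M →
      (∀ i, M * (p : ℝ) ^ (1 / 2 + ε) ≤ (R i).card) →
      ((((Fintype.piFinset R).filter fun x =>
        ∃ (χ : DirichletCharacter ℂ p) (I : Finset (Fin k)) (A : Finset (ZMod p)), χ ≠ 1 ∧
          (p : ℝ) ^ ε * (1 + k / M) ≤ I.card ∧ Cov x I A ((p : ℝ) ^ τ) ∧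
          (((p : ℝ) ^ ε ≤ A.card ∧ (A.card : ℝ) ^ (2 - τ) ≤ ‖∑ a ∈ A, ∑ b ∈ A, χ (a - b)‖) ∨
          ∃ B : Finset (ZMod p), (p : ℝ) ^ ε ≤ B.card ∧
            (p : ℝ) ^ (-τ) * (A.card * B.card) < ∑ a ∈ A, ‖∑ b ∈ B, χ (a - b)‖)).card : ℕ) : ℝ) ≤
        (p : ℝ) ^ (-Real.log p) * ∏ i, ((R i).card : ℝ) := by
  obtain ⟨C, hC, p₁, hp₁3, h⟩ := perturbed (min ε 1) (by positivity) (min_le_right _ _)
  obtain ⟨p₂, -, hp₂⟩ := log_le_rpow C (ε / 4) (by positivity)
  obtain ⟨τ, hτ⟩ : ∃ τ : ℝ, τ = ε / (12 * C) := ⟨_, rfl⟩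
  have hτ0 : 0 < τ := by rw [hτ]; positivity
  refine ⟨τ, hτ0, max p₁ p₂, fun p hpp hp k R M hM hR => ?_⟩
  have hp1 := (le_max_left p₁ p₂).trans hp
  have hp2 := (le_max_right p₁ p₂).trans hp
  have hlog := one_le_log (hp₁3.trans hp1)
  have hb := hp₂ p hp2
  have hp1' : (1 : ℝ) < p := by exact_mod_cast (by omega : 1 < p)
  have hp0 : (0 : ℝ) < p := by linarith
  have hM0 : 0 < M := by linarith
  refine le_trans ?_ (h p hp1 k R M hM fun i => le_trans ?_ (hR i))
  · refine Nat.cast_le.2 (card_le_card ?_)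
    intro x hx
    obtain ⟨hxR, χ, I, A, hχ, hI, hcov, hbad⟩ := mem_filter.1 hx
    refine mem_filter.2 ⟨hxR, χ, hχ, I, ?_⟩
    have hI1 : 1 ≤ I.card := by
      have h1 : (0 : ℝ) < I.card := lt_of_lt_of_le (by positivity) hI
      exact_mod_cast h1
    by_contra hcon
    have e : ((p : ℝ) ^ (-(3 * τ))) ^ (-C) = (p : ℝ) ^ (ε / 4) := by
      rw [← Real.rpow_mul hp0.le]
      congr 1
      rw [hτ]
      field_simp
      norm_num
    have hgood : ∀ B : Finset (ZMod p), (p : ℝ) ^ ε ≤ B.card →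
        ∑ i ∈ I, ‖∑ b ∈ B, χ (x i + b)‖ ≤ (p : ℝ) ^ (-(3 * τ)) * (I.card * B.card) := by
      intro B hB
      by_contra hlarge
      push Not at hlarge
      apply hcon
      refine ⟨B, (p : ℝ) ^ (-(3 * τ)), by positivity,
        Real.rpow_le_one_of_one_le_of_nonpos hp1'.le (by linarith), ?_, ?_, hlarge⟩
      · rw [e]
        refine le_trans ?_ hB
        calc C * (p : ℝ) ^ (ε / 4) * Real.log p ≤ (C * (1 + Real.log p)) * (p : ℝ) ^ (ε / 4) := by
              have : 0 < C * (p : ℝ) ^ (ε / 4) := by positivity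
              nlinarith
          _ ≤ (p : ℝ) ^ (ε / 4) * (p : ℝ) ^ (ε / 4) :=
              mul_le_mul_of_nonneg_right hb (by positivity)
          _ = (p : ℝ) ^ (ε / 2) := by rw [← Real.rpow_add hp0]; congr 1; ring
          _ ≤ (p : ℝ) ^ ε := Real.rpow_le_rpow_of_exponent_le hp1'.le (by linarith)
      · rw [e]
        refine le_trans ?_ hI
        have hkM : 0 ≤ (k : ℝ) / M := by positivity
        have h1 : Real.log p + k / M ≤ (1 + Real.log p) * (1 + k / M) := by nlinarith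
        calc C * (p : ℝ) ^ (ε / 4) * (Real.log p + k / M)
            ≤ C * (p : ℝ) ^ (ε / 4) * ((1 + Real.log p) * (1 + k / M)) :=
              mul_le_mul_of_nonneg_left h1 (by positivity)
          _ = (C * (1 + Real.log p)) * ((p : ℝ) ^ (ε / 4) * (1 + k / M)) := by ring
          _ ≤ (p : ℝ) ^ (ε / 4) * ((p : ℝ) ^ (ε / 4) * (1 + k / M)) :=
              mul_le_mul_of_nonneg_right hb (by positivity)
          _ = (p : ℝ) ^ (ε / 2) * (1 + k / M) := by
              rw [← mul_assoc, ← Real.rpow_add hp0]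
              congr 2
              ring
          _ ≤ (p : ℝ) ^ ε * (1 + k / M) := by
              refine mul_le_mul_of_nonneg_right ?_ (by positivity)
              exact Real.rpow_le_rpow_of_exponent_le hp1'.le (by linarith)
    have hall := good_cover χ x I hI1 A ((p : ℝ) ^ τ) ((p : ℝ) ^ (-(3 * τ))) ((p : ℝ) ^ ε)
      (by positivity) hgood hcov
    have e2 : (p : ℝ) ^ (-(3 * τ)) * (p : ℝ) ^ τ = (p : ℝ) ^ (-(2 * τ)) := by
      rw [← Real.rpow_add hp0]
      congr 1
      ring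
    rw [e2] at hall
    rcases hbad with ⟨hA, hbad⟩ | ⟨B, hB, hbad⟩
    · have h1 := (norm_sum_le _ _).trans (hall A hA)
      have h2 := hbad.trans h1
      have hA0 : (0 : ℝ) < A.card := lt_of_lt_of_le (by positivity) hA
      have hAp : (A.card : ℝ) ≤ p := by
        have := card_le_univ A
        rw [ZMod.card] at this
        exact_mod_cast this
      have e3 : (A.card : ℝ) ^ (2 - τ) = (A.card : ℝ) ^ (-τ) * (A.card * A.card) := by
        rw [sub_eq_add_neg, add_comm, Real.rpow_add hA0, Real.rpow_two, sq]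
      rw [e3] at h2
      have h3 : (A.card : ℝ) ^ (-τ) ≤ (p : ℝ) ^ (-(2 * τ)) :=
        le_of_mul_le_mul_right h2 (by positivity)
      have h4 : (p : ℝ) ^ (-τ) ≤ (A.card : ℝ) ^ (-τ) :=
        Real.rpow_le_rpow_of_nonpos hA0 hAp (by linarith)
      have h5 : (p : ℝ) ^ (-(2 * τ)) < (p : ℝ) ^ (-τ) :=
        Real.rpow_lt_rpow_of_exponent_lt hp1' (by linarith)
      linarith
    · have h1 := lt_of_lt_of_le hbad (hall B hB)
      have h2 : (p : ℝ) ^ (-(2 * τ)) ≤ (p : ℝ) ^ (-τ) :=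
        Real.rpow_le_rpow_of_exponent_le hp1'.le (by linarith)
      have h3 : (p : ℝ) ^ (-(2 * τ)) * (A.card * B.card : ℝ) ≤
          (p : ℝ) ^ (-τ) * (A.card * B.card) := mul_le_mul_of_nonneg_right h2 (by positivity)
      linarith
  · refine mul_le_mul_of_nonneg_left ?_ hM0.le
    refine Real.rpow_le_rpow_of_exponent_le hp1'.le ?_
    have := min_le_left ε 1
    linarith

end Pool.Agent.X222.PR
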