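import Pool.Agent.X222.PR.Main

/-! # Random hosts: power savings -/

set_option autoImplicit false

namespace Pool.Agent.X222.PR

open Finset

open Classical in
theorem power (ε : ℝ) (hε : 0 < ε) : ∃ δ : ℝ, 0 < δ ∧ ∃ p₀ : ℕ,
    ∀ (p : ℕ) [Fact p.Prime], p₀ ≤ p → ∀ k : ℕ, k ≤ p →
      (((((univ : Finset (ZMod p)).powersetCard k).filter fun S =>
        ∃ χ : DirichletCharacter ℂ p, χ ≠ 1 ∧ ∃ A B : Finset (ZMod p), A ⊆ S ∧
          (p : ℝ) ^ ε ≤ B.card ∧ (p : ℝ) ^ ε * max 1 (k / Real.sqrt p) ≤ A.card ∧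
          (p : ℝ) ^ (-δ) * (A.card * B.card) < ∑ a ∈ A, ‖∑ b ∈ B, χ (a + b)‖).card : ℕ) : ℝ) ≤
        (p : ℝ) ^ (-Real.log p) * (p.choose k : ℝ) := by
  obtain ⟨C, hC, p₁, hp₁3, h⟩ := random_hosts (min (ε / 2) 1) (by positivity) (min_le_right _ _)
  obtain ⟨p₂, -, hp₂⟩ := log_le_rpow C (ε / 4) (by positivity)
  refine ⟨ε / (4 * C), by positivity, max p₁ p₂, fun p hpp hp k hk => ?_⟩
  have hp1 := (le_max_left p₁ p₂).trans hp
  have hp2 := (le_max_right p₁ p₂).trans hp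
  have hlog := one_le_log (hp₁3.trans hp1)
  have hb := hp₂ p hp2
  have hp1' : (1 : ℝ) ≤ p := by exact_mod_cast (by omega : 1 ≤ p)
  have hp0 : (0 : ℝ) < p := by linarith
  refine le_trans ?_ (h p hp1 k hk)
  refine Nat.cast_le.2 (card_le_card ?_)
  intro S hS
  obtain ⟨hSk, χ, hχ, A, B, hAS, hB, hA, hlarge⟩ := mem_filter.1 hS
  refine mem_filter.2 ⟨hSk, χ, hχ, A, B, (p : ℝ) ^ (-(ε / (4 * C))), hAS, by positivity,
    Real.rpow_le_one_of_one_le_of_nonpos hp1' (by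
      have : 0 < ε / (4 * C) := by positivity
      linarith), ?_, ?_, hlarge⟩
  · have e : ((p : ℝ) ^ (-(ε / (4 * C)))) ^ (-C) = (p : ℝ) ^ (ε / 4) := by
      rw [← Real.rpow_mul hp0.le]
      congr 1
      field_simp
    rw [e]
    refine le_trans ?_ hB
    calc C * (p : ℝ) ^ (ε / 4) * Real.log p ≤ (C * (1 + Real.log p)) * (p : ℝ) ^ (ε / 4) := by
          have : 0 < C * (p : ℝ) ^ (ε / 4) := by positivity
          nlinarith
      _ ≤ (p : ℝ) ^ (ε / 4) * (p : ℝ) ^ (ε / 4) := mul_le_mul_of_nonneg_right hb (by positivity)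
      _ = (p : ℝ) ^ (ε / 2) := by rw [← Real.rpow_add hp0]; congr 1; ring
      _ ≤ (p : ℝ) ^ ε := Real.rpow_le_rpow_of_exponent_le hp1' (by linarith)
  · have e : ((p : ℝ) ^ (-(ε / (4 * C)))) ^ (-C) = (p : ℝ) ^ (ε / 4) := by
      rw [← Real.rpow_mul hp0.le]
      congr 1
      field_simp
    rw [e]
    refine le_trans ?_ hA
    have h1 : (k : ℝ) * (p : ℝ) ^ (-(1 / 2) + min (ε / 2) 1) ≤
        (p : ℝ) ^ (ε / 2) * max 1 (k / Real.sqrt p) := by
      have h2 : (p : ℝ) ^ (-(1 / 2) + min (ε / 2) 1) ≤ (p : ℝ) ^ (ε / 2) / Real.sqrt p := by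
        rw [Real.sqrt_eq_rpow, ← Real.rpow_sub hp0]
        refine Real.rpow_le_rpow_of_exponent_le hp1' ?_
        have := min_le_left (ε / 2) 1
        linarith
      calc (k : ℝ) * (p : ℝ) ^ (-(1 / 2) + min (ε / 2) 1)
          ≤ k * ((p : ℝ) ^ (ε / 2) / Real.sqrt p) :=
            mul_le_mul_of_nonneg_left h2 (Nat.cast_nonneg _)
        _ = (p : ℝ) ^ (ε / 2) * (k / Real.sqrt p) := by ring
        _ ≤ _ := mul_le_mul_of_nonneg_left (le_max_right _ _) (by positivity)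
    have h2 : Real.log p ≤ Real.log p * ((p : ℝ) ^ (ε / 2) * max 1 (k / Real.sqrt p)) := by
      have h3 : 1 ≤ (p : ℝ) ^ (ε / 2) := Real.one_le_rpow hp1' (by positivity)
      have h4 : (1 : ℝ) ≤ max 1 (k / Real.sqrt p) := le_max_left _ _
      have h5 : 1 ≤ (p : ℝ) ^ (ε / 2) * max 1 (k / Real.sqrt p) := by nlinarith
      nlinarith
    calc C * (p : ℝ) ^ (ε / 4) * (Real.log p + k * (p : ℝ) ^ (-(1 / 2) + min (ε / 2) 1))
        ≤ C * (p : ℝ) ^ (ε / 4) * (Real.log p * ((p : ℝ) ^ (ε / 2) * max 1 (k / Real.sqrt p)) +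
            (p : ℝ) ^ (ε / 2) * max 1 (k / Real.sqrt p)) :=
          mul_le_mul_of_nonneg_left (add_le_add h2 h1) (by positivity)
      _ = (C * (1 + Real.log p)) * ((p : ℝ) ^ (ε / 4) * (p : ℝ) ^ (ε / 2)) *
            max 1 (k / Real.sqrt p) := by ring
      _ ≤ (p : ℝ) ^ (ε / 4) * ((p : ℝ) ^ (ε / 4) * (p : ℝ) ^ (ε / 2)) *
            max 1 (k / Real.sqrt p) := by
          refine mul_le_mul_of_nonneg_right ?_ (by positivity)
          exact mul_le_mul_of_nonneg_right hb (by positivity)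
      _ = (p : ℝ) ^ ε * max 1 (k / Real.sqrt p) := by
          rw [← Real.rpow_add hp0, ← Real.rpow_add hp0]
          congr 2
          ring

end Pool.Agent.X222.PR
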