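import Pool.Agent.X222.PR.Mom
import Pool.Agent.X222.PR.Count
import Pool.Agent.X222.PR.Params

/-! # Containers for the sets with large character sums; random hosts -/

set_option autoImplicit false

namespace Pool.Agent.X222.PR

open Finset

section level

variable {p : ℕ} [Fact p.Prime]

open Classical in
/-- the numbers at which the sum over the shifts in `B` is large -/
noncomputable def lev (χ : DirichletCharacter ℂ p) (B : Finset (ZMod p)) (θ : ℝ) :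
    Finset (ZMod p) :=
  univ.filter fun x => θ ≤ ‖∑ b ∈ B, χ (x + b)‖

theorem lev_card (χ : DirichletCharacter ℂ p) (hχ : χ ≠ 1) (B : Finset (ZMod p))
    (hB : 1 ≤ B.card) (r : ℕ) (hr : 1 ≤ r) (η : ℝ) (hη : 0 < η) :
    ((lev χ B (η * B.card / 2)).card : ℝ) ≤
      (4 / η ^ 2) ^ r * ((3 * r / B.card) ^ r * p + 2 * r * Real.sqrt p) := by
  have hn0 : (0 : ℝ) < B.card := by exact_mod_cast hB
  set n : ℝ := (B.card : ℝ) with hn
  have h1 := momF χ hχ r hr B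
  rw [← hn] at h1
  have h2 : ((lev χ B (η * n / 2)).card : ℝ) * (η * n / 2) ^ (2 * r) ≤
      ∑ x : ZMod p, ‖∑ b ∈ B, χ (x + b)‖ ^ (2 * r) := by
    rw [← nsmul_eq_mul]
    refine le_trans ?_ (sum_le_sum_of_subset_of_nonneg (subset_univ (lev χ B (η * n / 2)))
      fun x _ _ => by positivity)
    refine card_nsmul_le_sum _ _ _ fun x hx => ?_
    exact pow_le_pow_left₀ (by positivity) (mem_filter.1 hx).2 _
  have h3 := h2.trans h1
  have e1 : (η * n / 2) ^ (2 * r) = n ^ (2 * r) * ((4 / η ^ 2) ^ r)⁻¹ := by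
    rw [pow_mul, pow_mul, ← inv_pow, ← mul_pow]
    congr 1
    field_simp
    norm_num
  have e2 : (3 * (r : ℝ) * n) ^ r * p + 2 * r * n ^ (2 * r) * Real.sqrt p =
      n ^ (2 * r) * ((3 * r / n) ^ r * p + 2 * r * Real.sqrt p) := by
    have e3 : (3 * (r : ℝ) * n) ^ r = n ^ (2 * r) * (3 * r / n) ^ r := by
      rw [pow_mul, ← mul_pow]
      congr 1
      field_simp
    rw [e3]
    ring
  rw [e1, e2] at h3
  have hy : (0 : ℝ) < (4 / η ^ 2) ^ r := by positivity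
  have h4 : ((lev χ B (η * n / 2)).card : ℝ) * ((4 / η ^ 2) ^ r)⁻¹ ≤
      (3 * r / n) ^ r * p + 2 * r * Real.sqrt p := by
    refine le_of_mul_le_mul_left (a := n ^ (2 * r)) ?_ (by positivity)
    calc _ = ((lev χ B (η * n / 2)).card : ℝ) * (n ^ (2 * r) * ((4 / η ^ 2) ^ r)⁻¹) := by ring
      _ ≤ _ := h3
  rw [← div_eq_mul_inv, div_le_iff₀ hy] at h4
  exact h4.trans (le_of_eq (mul_comm _ _))

theorem card_char : Fintype.card (DirichletCharacter ℂ p) ≤ p := by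
  rw [← Nat.card_eq_fintype_card, DirichletCharacter.card_eq_totient_of_hasEnoughRootsOfUnity]
  exact Nat.totient_le p

end level

open Classical in
/-- containers -/
theorem containers (ε : ℝ) (hε : 0 < ε) (hε1 : ε ≤ 1) : ∃ C : ℝ, 1 ≤ C ∧ ∃ p₀ : ℕ, 3 ≤ p₀ ∧
    ∀ (p : ℕ) [Fact p.Prime], p₀ ≤ p → ∀ n : ℕ, n ≤ p → C * Real.log p ≤ n →
      ∃ Lc : Finset (Finset (ZMod p)), Lc.card ≤ p ^ (n + 1) ∧
        (∀ L ∈ Lc, (L.card : ℝ) ≤ (p : ℝ) ^ (1 / 2 + ε / 2)) ∧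
        ∀ χ : DirichletCharacter ℂ p, χ ≠ 1 → ∀ (A B : Finset (ZMod p)) (η : ℝ), 0 < η → η ≤ 1 →
          C * η ^ (-C) * Real.log p ≤ n → n ≤ B.card →
          η * (A.card * B.card) < ∑ a ∈ A, ‖∑ b ∈ B, χ (a + b)‖ →
          ∃ L ∈ Lc, η * A.card / 2 ≤ ((A ∩ L).card : ℝ) := by
  obtain ⟨C, hC, p₀, hp₀3, hpar⟩ := params ε hε hε1
  refine ⟨C, hC, p₀, hp₀3, fun p hpp hp n hnp hn => ?_⟩
  have hC0 : 0 < C := by linarith
  have hlog := one_le_log (hp₀3.trans hp)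
  have hCl : 0 < C * Real.log p := by positivity
  have hn0 : (0 : ℝ) < n := lt_of_lt_of_le hCl hn
  have hn1 : 1 ≤ n := by exact_mod_cast hn0
  obtain ⟨σ, hσ⟩ : ∃ σ : ℝ, σ = (C * Real.log p / n) ^ (1 / C) := ⟨_, rfl⟩
  have hσ0 : 0 < σ := by rw [hσ]; positivity
  have hσ1 : σ ≤ 1 := by
    rw [hσ]
    exact Real.rpow_le_one (by positivity) ((div_le_one hn0).2 hn) (by positivity)
  have hσC : σ ^ (-C) = n / (C * Real.log p) := by
    rw [hσ, ← Real.rpow_mul (by positivity)]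
    rw [show 1 / C * -C = -1 by field_simp, Real.rpow_neg_one, inv_div]
  have hσn : C * σ ^ (-C) * Real.log p = n := by
    rw [hσC]
    field_simp
  obtain ⟨r, hr, hbound⟩ := hpar p hp σ n hσ0 hσ1 hnp hσn.le
  refine ⟨(((univ : Finset (ZMod p)).powersetCard n) ×ˢ
    ((univ : Finset (DirichletCharacter ℂ p)).filter fun χ => χ ≠ 1)).image
      fun w => lev w.2 w.1 (σ * n / 2), ?_, ?_, ?_⟩
  · refine card_image_le.trans ?_
    rw [card_product, card_powersetCard, card_univ, ZMod.card, pow_succ]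
    refine Nat.mul_le_mul (Nat.choose_le_pow p n) ?_
    exact (card_filter_le _ _).trans card_char
  · intro L hL
    obtain ⟨w, hw, rfl⟩ := mem_image.1 hL
    obtain ⟨h1, h2⟩ := mem_product.1 hw
    have h3 : w.1.card = n := (mem_powersetCard.1 h1).2
    have h4 := lev_card w.2 (mem_filter.1 h2).2 w.1 (by omega) r hr σ hσ0
    rw [h3] at h4
    exact h4.trans hbound
  · intro χ hχ A B η hη hη1 hnη hnB hlarge
    have hση : σ ≤ η := by
      by_contra hcon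
      push Not at hcon
      have h1 := Real.rpow_lt_rpow_of_neg hη hcon (neg_lt_zero.2 hC0)
      have h2 : C * σ ^ (-C) * Real.log p < C * η ^ (-C) * Real.log p :=
        mul_lt_mul_of_pos_right (mul_lt_mul_of_pos_left h1 hC0) (by linarith)
      linarith
    obtain ⟨B', hB', hc, h⟩ := capture A (fun a b => χ (a + b)) (fun a b => χ.norm_le_one _) n hn1
      B hnB η hη.le hlarge
    refine ⟨lev χ B' (σ * n / 2), mem_image.2 ⟨(B', χ), mem_product.2
      ⟨mem_powersetCard.2 ⟨subset_univ _, hc⟩, mem_filter.2 ⟨mem_univ _, hχ⟩⟩, rfl⟩, ?_⟩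
    refine h.trans ?_
    have hsub : (A.filter fun a => η * n / 2 ≤ ‖∑ b ∈ B', χ (a + b)‖) ⊆
        A ∩ lev χ B' (σ * n / 2) := by
      intro a ha
      obtain ⟨h1, h2⟩ := mem_filter.1 ha
      refine mem_inter.2 ⟨h1, mem_filter.2 ⟨mem_univ _, le_trans ?_ h2⟩⟩
      have h3 : σ * n ≤ η * n := mul_le_mul_of_nonneg_right hση hn0.le
      linarith
    exact_mod_cast card_le_card hsub

open Classical in
/-- random hosts -/
theorem random_hosts (ε : ℝ) (hε : 0 < ε) (hε1 : ε ≤ 1) : ∃ C : ℝ, 1 ≤ C ∧ ∃ p₀ : ℕ, 3 ≤ p₀ ∧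
    ∀ (p : ℕ) [Fact p.Prime], p₀ ≤ p → ∀ k : ℕ, k ≤ p →
      (((((univ : Finset (ZMod p)).powersetCard k).filter fun S =>
        ∃ χ : DirichletCharacter ℂ p, χ ≠ 1 ∧ ∃ (A B : Finset (ZMod p)) (η : ℝ), A ⊆ S ∧
          0 < η ∧ η ≤ 1 ∧ C * η ^ (-C) * Real.log p ≤ B.card ∧
          C * η ^ (-C) * (Real.log p + k * (p : ℝ) ^ (-(1 / 2) + ε)) ≤ A.card ∧
          η * (A.card * B.card) < ∑ a ∈ A, ‖∑ b ∈ B, χ (a + b)‖).card : ℕ) : ℝ) ≤
        (p : ℝ) ^ (-Real.log p) * (p.choose k : ℝ) := by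
  obtain ⟨C₁, hC₁, p₀, hp₀3, hcont⟩ := containers ε hε hε1
  obtain ⟨C₂, hC₂⟩ : ∃ C₂ : ℝ, C₂ = 8 / ε := ⟨_, rfl⟩
  have hC₂8 : 8 ≤ C₂ := by
    rw [hC₂, le_div_iff₀ hε]
    linarith
  refine ⟨4 * (C₂ + 1) * (C₁ + 1), by nlinarith, p₀, hp₀3, fun p hpp hp k hk => ?_⟩
  have hlog := one_le_log (hp₀3.trans hp)
  have hp1 : (1 : ℝ) ≤ p := by exact_mod_cast (by omega : 1 ≤ p)
  have hp0 : (0 : ℝ) < p := by linarith
  have h : ∀ n : ℕ, ∃ Lc : Finset (Finset (ZMod p)), n ≤ p → C₁ * Real.log p ≤ n →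
      Lc.card ≤ p ^ (n + 1) ∧
        (∀ L ∈ Lc, (L.card : ℝ) ≤ (p : ℝ) ^ (1 / 2 + ε / 2)) ∧
        ∀ χ : DirichletCharacter ℂ p, χ ≠ 1 → ∀ (A B : Finset (ZMod p)) (η : ℝ), 0 < η → η ≤ 1 →
          C₁ * η ^ (-C₁) * Real.log p ≤ n → n ≤ B.card →
          η * (A.card * B.card) < ∑ a ∈ A, ‖∑ b ∈ B, χ (a + b)‖ →
          ∃ L ∈ Lc, η * A.card / 2 ≤ ((A ∩ L).card : ℝ) := by
    intro n
    by_cases h1 : n ≤ p ∧ C₁ * Real.log p ≤ n
    · obtain ⟨Lc, h2⟩ := hcont p hp n h1.1 h1.2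
      exact ⟨Lc, fun _ _ => h2⟩
    · exact ⟨∅, fun h2 h3 => absurd ⟨h2, h3⟩ h1⟩
  choose Lc hLc using h
  set K : ℝ := k * (p : ℝ) ^ (-(1 / 2) + ε) with hK
  have hK0 : 0 ≤ K := by positivity
  obtain ⟨t, ht⟩ : ∃ t : ℕ → ℕ, t = fun n : ℕ => ⌈C₂ * ((n : ℝ) + K)⌉₊ := ⟨_, rfl⟩
  have hsub : (((univ : Finset (ZMod p)).powersetCard k).filter fun S =>
        ∃ χ : DirichletCharacter ℂ p, χ ≠ 1 ∧ ∃ (A B : Finset (ZMod p)) (η : ℝ), A ⊆ S ∧
          0 < η ∧ η ≤ 1 ∧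
          (4 * (C₂ + 1) * (C₁ + 1)) * η ^ (-(4 * (C₂ + 1) * (C₁ + 1))) * Real.log p ≤ B.card ∧
          (4 * (C₂ + 1) * (C₁ + 1)) * η ^ (-(4 * (C₂ + 1) * (C₁ + 1))) *
            (Real.log p + K) ≤ A.card ∧
          η * (A.card * B.card) < ∑ a ∈ A, ‖∑ b ∈ B, χ (a + b)‖) ⊆
      ((Icc 1 p).filter fun n : ℕ => C₁ * Real.log p ≤ n).biUnion fun n =>
        (Lc n).biUnion fun L =>
          ((univ : Finset (ZMod p)).powersetCard k).filter fun S => t n ≤ (S ∩ L).card := by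
    intro S hS
    obtain ⟨hSk, χ, hχ, A, B, η, hAS, hη, hη1, hB, hA, hlarge⟩ := mem_filter.1 hS
    set D : ℝ := 4 * (C₂ + 1) * (C₁ + 1) with hD
    have hD1 : C₁ + 1 ≤ D := by nlinarith
    have hη1' : 1 ≤ η ^ (-C₁) := Real.one_le_rpow_of_pos_of_le_one_of_nonpos hη hη1 (by linarith)
    have hηD : η ^ (-C₁) ≤ η ^ (-D) :=
      Real.rpow_le_rpow_of_exponent_ge hη hη1 (by linarith)
    have hηD1 : η ^ (-C₁) ≤ η ^ (1 - D) :=
      Real.rpow_le_rpow_of_exponent_ge hη hη1 (by linarith)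
    have hηD2 : η * η ^ (-D) = η ^ (1 - D) := by
      rw [sub_eq_add_neg, Real.rpow_add hη, Real.rpow_one]
    obtain ⟨n, hn⟩ : ∃ n : ℕ, n = ⌈C₁ * η ^ (-C₁) * Real.log p⌉₊ := ⟨_, rfl⟩
    have hx0 : 1 ≤ η ^ (-C₁) * Real.log p := by nlinarith
    have hn1 : C₁ * η ^ (-C₁) * Real.log p ≤ n := by rw [hn]; exact Nat.le_ceil _
    have hn2 : (n : ℝ) ≤ (C₁ + 1) * (η ^ (-C₁) * Real.log p) := by
      have h1 : (n : ℝ) < C₁ * η ^ (-C₁) * Real.log p + 1 := by
        rw [hn]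
        exact Nat.ceil_lt_add_one (by positivity)
      nlinarith
    have hn3 : C₁ * Real.log p ≤ n := by
      refine le_trans ?_ hn1
      have : C₁ * 1 ≤ C₁ * η ^ (-C₁) := mul_le_mul_of_nonneg_left hη1' (by linarith)
      nlinarith
    have hnB : n ≤ B.card := by
      have h1 : (n : ℝ) ≤ B.card := by
        refine hn2.trans (le_trans ?_ hB)
        rw [mul_assoc]
        refine mul_le_mul hD1 ?_ (by positivity) (by linarith)
        exact mul_le_mul_of_nonneg_right hηD (by linarith)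
      exact_mod_cast h1
    have hBp : B.card ≤ p := by
      have := card_le_univ B
      rwa [ZMod.card] at this
    have hn1' : 1 ≤ n := by
      have h1 : (0 : ℝ) < n := lt_of_lt_of_le (by positivity) hn3
      exact_mod_cast h1
    obtain ⟨-, -, h3⟩ := hLc n (hnB.trans hBp) hn3
    obtain ⟨L, hL, hAL⟩ := h3 χ hχ A B η hη hη1 hn1 hnB hlarge
    rw [mem_biUnion]
    refine ⟨n, mem_filter.2 ⟨mem_Icc.2 ⟨hn1', hnB.trans hBp⟩, hn3⟩, ?_⟩
    rw [mem_biUnion]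
    refine ⟨L, hL, mem_filter.2 ⟨hSk, ?_⟩⟩
    rw [ht]
    simp only
    rw [Nat.ceil_le]
    have h4 : ((A ∩ L).card : ℝ) ≤ ((S ∩ L).card : ℝ) := by
      exact_mod_cast card_le_card (inter_subset_inter_right hAS)
    refine le_trans ?_ (hAL.trans h4)
    have h5 : η * (D * η ^ (-D) * (Real.log p + K)) ≤ η * A.card :=
      mul_le_mul_of_nonneg_left hA hη.le
    have h6 : η * (D * η ^ (-D) * (Real.log p + K)) = D * η ^ (1 - D) * (Real.log p + K) := by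
      rw [← hηD2]; ring
    have h7 : D * η ^ (-C₁) * (Real.log p + K) ≤ D * η ^ (1 - D) * (Real.log p + K) := by
      refine mul_le_mul_of_nonneg_right ?_ (by linarith)
      exact mul_le_mul_of_nonneg_left hηD1 (by linarith)
    have h8 : C₂ * (n + K) ≤ D * η ^ (-C₁) * (Real.log p + K) / 2 := by
      have h9 : (n : ℝ) + K ≤ (C₁ + 1) * (η ^ (-C₁) * (Real.log p + K)) := by
        have h10 : K ≤ (C₁ + 1) * (η ^ (-C₁) * K) := by
          have h11 : 1 * K ≤ η ^ (-C₁) * K := mul_le_mul_of_nonneg_right hη1' hK0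
          nlinarith
        nlinarith
      have h12 : C₂ * (n + K) ≤ C₂ * ((C₁ + 1) * (η ^ (-C₁) * (Real.log p + K))) :=
        mul_le_mul_of_nonneg_left h9 (by linarith)
      have h13 : 0 ≤ (C₁ + 1) * (η ^ (-C₁) * (Real.log p + K)) := by positivity
      rw [hD]
      nlinarith
    linarith
  have hterm : ∀ n ∈ (Icc 1 p).filter (fun n : ℕ => C₁ * Real.log p ≤ n), ∀ L ∈ Lc n,
      (((((univ : Finset (ZMod p)).powersetCard k).filter fun S =>
        t n ≤ (S ∩ L).card).card : ℕ) : ℝ) ≤ (p.choose k : ℝ) * ((p : ℝ) ^ (4 * n))⁻¹ := by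
    intro n hn L hL
    obtain ⟨hn1, hn3⟩ := mem_filter.1 hn
    obtain ⟨hn1, hn2⟩ := mem_Icc.1 hn1
    obtain ⟨-, h2, -⟩ := hLc n hn2 hn3
    have hLn := h2 L hL
    have htn : C₂ * (n + K) ≤ t n := by rw [ht]; exact Nat.le_ceil _
    have hn1' : (1 : ℝ) ≤ n := by exact_mod_cast hn1
    have ht0 : (0 : ℝ) < t n := lt_of_lt_of_le (by positivity) htn
    have ht1 : 1 ≤ t n := by exact_mod_cast ht0
    have h1 := hosts k (t n) ht1 L (by rw [ZMod.card]; exact hk)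
    rw [ZMod.card] at h1
    refine h1.trans (mul_le_mul_of_nonneg_left ?_ (Nat.cast_nonneg _))
    have h3 : 3 * ((L.card : ℝ) * k / p) / t n ≤ (p : ℝ) ^ (-(ε / 2)) := by
      rw [div_le_iff₀ ht0]
      have h4 : (L.card : ℝ) * k / p ≤ k * (p : ℝ) ^ (-(1 / 2) + ε / 2) := by
        have h5 : (p : ℝ) ^ (-(1 / 2) + ε / 2) = (p : ℝ) ^ (1 / 2 + ε / 2) / p := by
          rw [← Real.rpow_sub_one hp0.ne']
          congr 1
          ring
        rw [h5]
        calc (L.card : ℝ) * k / p ≤ (p : ℝ) ^ (1 / 2 + ε / 2) * k / p := by gcongr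
          _ = _ := by ring
      have h5 : (p : ℝ) ^ (-(ε / 2)) * (C₂ * K) = C₂ * (k * (p : ℝ) ^ (-(1 / 2) + ε / 2)) := by
        rw [hK]
        have h6 : (p : ℝ) ^ (-(1 / 2) + ε / 2) =
            (p : ℝ) ^ (-(1 / 2) + ε) * (p : ℝ) ^ (-(ε / 2)) := by
          rw [← Real.rpow_add hp0]
          congr 1
          ring
        rw [h6]
        ring
      have h6 : (p : ℝ) ^ (-(ε / 2)) * (C₂ * K) ≤ (p : ℝ) ^ (-(ε / 2)) * t n := by
        refine mul_le_mul_of_nonneg_left ?_ (by positivity)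
        refine le_trans ?_ htn
        exact mul_le_mul_of_nonneg_left (by linarith) (by linarith)
      have h7 : 0 ≤ (k : ℝ) * (p : ℝ) ^ (-(1 / 2) + ε / 2) := by positivity
      nlinarith
    calc (3 * ((L.card : ℝ) * k / p) / t n) ^ t n ≤ ((p : ℝ) ^ (-(ε / 2))) ^ t n :=
          pow_le_pow_left₀ (by positivity) h3 _
      _ = (p : ℝ) ^ (-(ε / 2) * t n) := by rw [← Real.rpow_natCast, ← Real.rpow_mul hp0.le]
      _ ≤ (p : ℝ) ^ (-((4 * n : ℕ) : ℝ)) := by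
          refine Real.rpow_le_rpow_of_exponent_le hp1 ?_
          push_cast
          have h8 : C₂ * n ≤ t n := le_trans (mul_le_mul_of_nonneg_left (by linarith)
            (by linarith)) htn
          have h9 : ε / 2 * (C₂ * n) = 4 * n := by rw [hC₂]; field_simp; norm_num
          have h10 : ε / 2 * (C₂ * n) ≤ ε / 2 * t n :=
            mul_le_mul_of_nonneg_left h8 (by positivity)
          linarith
      _ = ((p : ℝ) ^ (4 * n))⁻¹ := by rw [Real.rpow_neg hp0.le, Real.rpow_natCast]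
  have hcard := (card_le_card hsub).trans card_biUnion_le
  have hcard2 : (((((univ : Finset (ZMod p)).powersetCard k).filter fun S =>
        ∃ χ : DirichletCharacter ℂ p, χ ≠ 1 ∧ ∃ (A B : Finset (ZMod p)) (η : ℝ), A ⊆ S ∧
          0 < η ∧ η ≤ 1 ∧
          (4 * (C₂ + 1) * (C₁ + 1)) * η ^ (-(4 * (C₂ + 1) * (C₁ + 1))) * Real.log p ≤ B.card ∧
          (4 * (C₂ + 1) * (C₁ + 1)) * η ^ (-(4 * (C₂ + 1) * (C₁ + 1))) *
            (Real.log p + K) ≤ A.card ∧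
          η * (A.card * B.card) < ∑ a ∈ A, ‖∑ b ∈ B, χ (a + b)‖).card : ℕ) : ℝ) ≤
      ∑ n ∈ (Icc 1 p).filter (fun n : ℕ => C₁ * Real.log p ≤ n), ∑ L ∈ Lc n,
        (((((univ : Finset (ZMod p)).powersetCard k).filter fun S =>
          t n ≤ (S ∩ L).card).card : ℕ) : ℝ) := by
    refine (Nat.cast_le.2 hcard).trans ?_
    rw [Nat.cast_sum]
    refine sum_le_sum fun n _ => ?_
    rw [← Nat.cast_sum]
    exact Nat.cast_le.2 card_biUnion_le
  refine hcard2.trans ?_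
  have hsum : ∀ n ∈ (Icc 1 p).filter (fun n : ℕ => C₁ * Real.log p ≤ n), ∑ L ∈ Lc n,
        (((((univ : Finset (ZMod p)).powersetCard k).filter fun S =>
          t n ≤ (S ∩ L).card).card : ℕ) : ℝ) ≤
      (p.choose k : ℝ) * (p : ℝ) ^ (-1 - Real.log p) := by
    intro n hn
    refine (sum_le_card_nsmul _ _ _ (hterm n hn)).trans ?_
    obtain ⟨hn1, hn3⟩ := mem_filter.1 hn
    obtain ⟨hn1, hn2⟩ := mem_Icc.1 hn1
    obtain ⟨h1, -, -⟩ := hLc n hn2 hn3
    have hn1' : (1 : ℝ) ≤ n := by exact_mod_cast hn1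
    have hln : Real.log p ≤ n := by nlinarith
    rw [nsmul_eq_mul]
    calc ((Lc n).card : ℝ) * ((p.choose k : ℝ) * ((p : ℝ) ^ (4 * n))⁻¹)
        ≤ (p : ℝ) ^ (n + 1) * ((p.choose k : ℝ) * ((p : ℝ) ^ (4 * n))⁻¹) :=
          mul_le_mul_of_nonneg_right (by exact_mod_cast h1) (by positivity)
      _ = (p.choose k : ℝ) * ((p : ℝ) ^ (((n + 1 : ℕ) : ℝ) - ((4 * n : ℕ) : ℝ))) := by
          rw [Real.rpow_sub hp0, Real.rpow_natCast, Real.rpow_natCast]
          ring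
      _ ≤ (p.choose k : ℝ) * (p : ℝ) ^ (-1 - Real.log p) := by
          refine mul_le_mul_of_nonneg_left ?_ (Nat.cast_nonneg _)
          refine Real.rpow_le_rpow_of_exponent_le hp1 ?_
          push_cast
          linarith
  refine (sum_le_card_nsmul _ _ _ hsum).trans ?_
  rw [nsmul_eq_mul]
  have hc : ((((Icc 1 p).filter fun n : ℕ => C₁ * Real.log p ≤ n).card : ℕ) : ℝ) ≤ p := by
    have := card_filter_le (Icc 1 p) fun n : ℕ => C₁ * Real.log p ≤ n
    rw [Nat.card_Icc] at this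
    exact_mod_cast (by omega : ((Icc 1 p).filter fun n : ℕ => C₁ * Real.log p ≤ n).card ≤ p)
  calc ((((Icc 1 p).filter fun n : ℕ => C₁ * Real.log p ≤ n).card : ℕ) : ℝ) *
        ((p.choose k : ℝ) * (p : ℝ) ^ (-1 - Real.log p))
      ≤ (p : ℝ) * ((p.choose k : ℝ) * (p : ℝ) ^ (-1 - Real.log p)) :=
        mul_le_mul_of_nonneg_right hc (by positivity)
    _ = (p : ℝ) ^ (-Real.log p) * (p.choose k : ℝ) := by
        have h1 : (p : ℝ) ^ (-Real.log p) = (p : ℝ) * (p : ℝ) ^ (-1 - Real.log p) := by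
          rw [← Real.rpow_one_add' hp0.le (by linarith)]
          congr 1
          ring
        rw [h1]
        ring

end Pool.Agent.X222.PR
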