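import Pool.Agent.H435R3.Paley.All

/-! # Moments of character sums over arbitrary sets of shifts, of order up to `log p` -/

set_option autoImplicit false

namespace Pool.Agent.X222.PR

open Finset Pool.Agent.H471R4.BW Pool.Agent.H435R3.Paley

open Classical in
/-- few pairs of tuples without a value occurring exactly once -/
theorem tup (r n : ℕ) (hr : 1 ≤ r) :
    ((((univ : Finset ((Fin r → Fin n) × (Fin r → Fin n))).filter fun w =>
      ¬ Uniq (fun i => (w.1 i : ℕ)) (fun i => (w.2 i : ℕ))).card : ℕ) : ℝ) ≤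
      (3 * r * n : ℝ) ^ r := by
  have hr0 : (0 : ℝ) < r := by exact_mod_cast hr
  rcases le_or_gt n r with hn | hn
  · have h1 : ((univ : Finset ((Fin r → Fin n) × (Fin r → Fin n))).filter fun w =>
      ¬ Uniq (fun i => (w.1 i : ℕ)) (fun i => (w.2 i : ℕ))).card ≤ n ^ r * n ^ r := by
      refine (card_filter_le _ _).trans (le_of_eq ?_)
      rw [card_univ, Fintype.card_prod, Fintype.card_fun, Fintype.card_fin, Fintype.card_fin]
    have h2 : ((n ^ r * n ^ r : ℕ) : ℝ) ≤ (3 * r * n : ℝ) ^ r := by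
      push_cast
      rw [← mul_pow]
      refine pow_le_pow_left₀ (by positivity) ?_ _
      have h3 : (n : ℝ) ≤ r := by exact_mod_cast hn
      have h4 : (0 : ℝ) ≤ n := Nat.cast_nonneg n
      nlinarith
    exact le_trans (by exact_mod_cast h1) h2
  · have hsub : ((univ : Finset ((Fin r → Fin n) × (Fin r → Fin n))).filter fun w =>
      ¬ Uniq (fun i => (w.1 i : ℕ)) (fun i => (w.2 i : ℕ))) ⊆
        ((univ : Finset (Fin n)).powersetCard r).biUnion fun I =>
          (Fintype.piFinset fun _ : Fin r => I) ×ˢ (Fintype.piFinset fun _ : Fin r => I) := by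
      intro w hw
      rw [mem_filter] at hw
      have hU := hw.2
      unfold Uniq at hU
      push Not at hU
      let h : Fin r ⊕ Fin r → Fin n := Sum.elim w.1 w.2
      let I : Finset (Fin n) := univ.image h
      have hfib : ∀ v ∈ I, 2 ≤ (univ.filter fun z => h z = v).card := by
        intro v hv
        have h1 : 1 ≤ (univ.filter fun z => h z = v).card := by
          obtain ⟨z, _, hz⟩ := mem_image.1 hv
          exact Finset.card_pos.2 ⟨z, by simp [hz]⟩
        have h2 : (univ.filter fun z => h z = v).card ≠ 1 := by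
          intro hc
          apply hU (v : ℕ)
          rw [← hc]
          have e : (univ.filter fun z => h z = v) =
              (univ.filter fun i => w.1 i = v).disjSum (univ.filter fun i => w.2 i = v) := by
            ext z
            rcases z with i | i <;> simp [h]
          rw [e, Finset.card_disjSum]
          congr 1 <;> · congr 1; ext i; simp [Fin.ext_iff]
        omega
      have hI : I.card ≤ r := by
        have e1 : (univ : Finset (Fin r ⊕ Fin r)).card =
            ∑ v ∈ I, (univ.filter fun z => h z = v).card :=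
          Finset.card_eq_sum_card_image h univ
        have e2 : (univ : Finset (Fin r ⊕ Fin r)).card = 2 * r := by simp; ring
        have e3 : I.card * 2 ≤ ∑ v ∈ I, (univ.filter fun z => h z = v).card := by
          rw [← smul_eq_mul]
          exact Finset.card_nsmul_le_sum I _ 2 hfib
        omega
      obtain ⟨J, hIJ, hJ, hJc⟩ := Finset.exists_subsuperset_card_eq (subset_univ I) hI
        (by rw [card_univ, Fintype.card_fin]; omega)
      rw [mem_biUnion]
      refine ⟨J, mem_powersetCard.2 ⟨hJ, hJc⟩, ?_⟩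
      rw [mem_product, Fintype.mem_piFinset, Fintype.mem_piFinset]
      refine ⟨fun i => hIJ ?_, fun i => hIJ ?_⟩
      · exact mem_image.2 ⟨Sum.inl i, mem_univ _, rfl⟩
      · exact mem_image.2 ⟨Sum.inr i, mem_univ _, rfl⟩
    have h1 : ((univ : Finset ((Fin r → Fin n) × (Fin r → Fin n))).filter fun w =>
      ¬ Uniq (fun i => (w.1 i : ℕ)) (fun i => (w.2 i : ℕ))).card ≤
        n.choose r * (r ^ r * r ^ r) := by
      refine (card_le_card hsub).trans (card_biUnion_le.trans ?_)
      have e : ∀ I ∈ (univ : Finset (Fin n)).powersetCard r,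
          ((Fintype.piFinset fun _ : Fin r => I) ×ˢ (Fintype.piFinset fun _ : Fin r => I)).card =
            r ^ r * r ^ r := by
        intro I hI
        rw [card_product, Fintype.card_piFinset_const, (mem_powersetCard.1 hI).2]
      rw [sum_congr rfl e, sum_const, card_powersetCard, card_univ, Fintype.card_fin, smul_eq_mul]
    have h2 : ((n.choose r : ℕ) : ℝ) ≤ (n : ℝ) ^ r / (r.factorial : ℝ) := Nat.choose_le_pow_div r n
    have h3 : (r : ℝ) ^ r / (r.factorial : ℝ) ≤ 3 ^ r := by
      refine (Real.pow_div_factorial_le_exp (r : ℝ) hr0.le r).trans ?_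
      have h4 : Real.exp (r : ℝ) = Real.exp 1 ^ r := by
        rw [← Real.exp_nat_mul, mul_one]
      rw [h4]
      exact pow_le_pow_left₀ (Real.exp_pos 1).le
        (le_trans Real.exp_one_lt_d9.le (by norm_num)) _
    calc (((((univ : Finset ((Fin r → Fin n) × (Fin r → Fin n))).filter fun w =>
      ¬ Uniq (fun i => (w.1 i : ℕ)) (fun i => (w.2 i : ℕ))).card : ℕ) : ℝ))
        ≤ ((n.choose r * (r ^ r * r ^ r) : ℕ) : ℝ) := by exact_mod_cast h1
      _ = (n.choose r : ℝ) * ((r : ℝ) ^ r * (r : ℝ) ^ r) := by push_cast; ring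
      _ ≤ ((n : ℝ) ^ r / (r.factorial : ℝ)) * ((r : ℝ) ^ r * (r : ℝ) ^ r) :=
          mul_le_mul_of_nonneg_right h2 (by positivity)
      _ = ((n : ℝ) ^ r * (r : ℝ) ^ r) * ((r : ℝ) ^ r / (r.factorial : ℝ)) := by ring
      _ ≤ ((n : ℝ) ^ r * (r : ℝ) ^ r) * 3 ^ r := mul_le_mul_of_nonneg_left h3 (by positivity)
      _ = (3 * r * n : ℝ) ^ r := by rw [mul_pow, mul_pow]; ring

variable {N : ℕ} [NeZero N] (χ : DirichletCharacter ℂ N)

open Classical in
theorem momB (r n : ℕ) (K : ℝ) (hr : 1 ≤ r) (hK : 0 ≤ K) (w : Fin n → ZMod N)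
    (hw : Function.Injective w) (hC : Complete N χ r N K) :
    ∑ x : ZMod N, ‖∑ j, χ (x + w j)‖ ^ (2 * r) ≤
      (3 * r * n : ℝ) ^ r * N + K * (n : ℝ) ^ (2 * r) * Real.sqrt N := by
  have hW : ((∑ x : ZMod N, ‖∑ j, χ (x + w j)‖ ^ (2 * r) : ℝ) : ℂ) =
      ∑ u : (Fin r → Fin n) × (Fin r → Fin n), ∑ x : ZMod N, term χ r n w u.1 u.2 x := by
    rw [Finset.sum_comm]
    push_cast
    refine Finset.sum_congr rfl fun x _ => ?_
    have := expand χ r n w x
    push_cast at this
    rw [this, ← Finset.univ_product_univ, Finset.sum_product]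
  have hW0 : 0 ≤ ∑ x : ZMod N, ‖∑ j, χ (x + w j)‖ ^ (2 * r) :=
    Finset.sum_nonneg fun x _ => by positivity
  have hW1 : ∑ x : ZMod N, ‖∑ j, χ (x + w j)‖ ^ (2 * r) =
      ‖∑ u : (Fin r → Fin n) × (Fin r → Fin n), ∑ x : ZMod N, term χ r n w u.1 u.2 x‖ := by
    rw [← hW, Complex.norm_real, Real.norm_eq_abs, abs_of_nonneg hW0]
  rw [hW1]
  refine (norm_sum_le _ _).trans ?_
  rw [← Finset.sum_filter_add_sum_filter_not Finset.univ
    (fun u : (Fin r → Fin n) × (Fin r → Fin n) =>
      ¬ Uniq (fun i => (u.1 i : ℕ)) (fun i => (u.2 i : ℕ)))]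
  refine add_le_add ?_ ?_
  · have h1 : ∀ u ∈ Finset.univ.filter (fun u : (Fin r → Fin n) × (Fin r → Fin n) =>
        ¬ Uniq (fun i => (u.1 i : ℕ)) (fun i => (u.2 i : ℕ))),
        ‖∑ x : ZMod N, term χ r n w u.1 u.2 x‖ ≤ (N : ℝ) := by
      intro u _
      refine (norm_sum_le _ _).trans ?_
      calc ∑ x : ZMod N, ‖term χ r n w u.1 u.2 x‖ ≤ ∑ _x : ZMod N, (1 : ℝ) :=
            Finset.sum_le_sum fun x _ => term_norm_le χ r n w u.1 u.2 x
        _ = N := by simp
    refine (Finset.sum_le_card_nsmul _ _ _ h1).trans ?_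
    rw [nsmul_eq_mul]
    exact mul_le_mul_of_nonneg_right (tup r n hr) (Nat.cast_nonneg N)
  · have h1 : ∀ u ∈ Finset.univ.filter (fun u : (Fin r → Fin n) × (Fin r → Fin n) =>
        ¬ ¬ Uniq (fun i => (u.1 i : ℕ)) (fun i => (u.2 i : ℕ))),
        ‖∑ x : ZMod N, term χ r n w u.1 u.2 x‖ ≤ K * Real.sqrt N := by
      intro u hu
      rw [Finset.mem_filter] at hu
      have h3 := hC (fun i => (w (u.1 i)).val) (fun i => (w (u.2 i)).val)
        (fun i => ZMod.val_lt _) (fun i => ZMod.val_lt _)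
        (uniq_val w hw u.1 u.2 (not_not.1 hu.2))
      simp only [ZMod.natCast_zmod_val] at h3
      exact h3
    refine (Finset.sum_le_card_nsmul _ _ _ h1).trans ?_
    rw [nsmul_eq_mul]
    have h2 : (((Finset.univ.filter (fun u : (Fin r → Fin n) × (Fin r → Fin n) =>
        ¬ ¬ Uniq (fun i => (u.1 i : ℕ)) (fun i => (u.2 i : ℕ)))).card : ℕ) : ℝ) ≤
        (n : ℝ) ^ (2 * r) := by
      have h3 := Finset.card_filter_le (Finset.univ : Finset ((Fin r → Fin n) × (Fin r → Fin n)))
        (fun u => ¬ ¬ Uniq (fun i => (u.1 i : ℕ)) (fun i => (u.2 i : ℕ)))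
      have h4 : (Finset.univ : Finset ((Fin r → Fin n) × (Fin r → Fin n))).card = n ^ (2 * r) := by
        rw [Finset.card_univ, Fintype.card_prod, Fintype.card_fun, Fintype.card_fin,
          Fintype.card_fin, two_mul, pow_add]
      rw [h4] at h3
      exact_mod_cast h3
    calc _ ≤ (n : ℝ) ^ (2 * r) * (K * Real.sqrt N) :=
          mul_le_mul_of_nonneg_right h2 (mul_nonneg hK (Real.sqrt_nonneg _))
      _ = K * (n : ℝ) ^ (2 * r) * Real.sqrt N := by ring

/-- the moments of the sums over a finite set of shifts -/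
theorem momF {p : ℕ} [Fact p.Prime] (χ : DirichletCharacter ℂ p) (hχ : χ ≠ 1) (r : ℕ)
    (hr : 1 ≤ r) (B : Finset (ZMod p)) :
    ∑ x : ZMod p, ‖∑ b ∈ B, χ (x + b)‖ ^ (2 * r) ≤
      (3 * r * B.card : ℝ) ^ r * p + (2 * r) * (B.card : ℝ) ^ (2 * r) * Real.sqrt p := by
  classical
  have hC : Complete p χ r p (2 * r) := by
    have := good_all p χ hχ r hr
    exact this
  have h := momB χ r B.card (2 * r) hr (by positivity) (fun j => (B.equivFin.symm j : ZMod p))
    (fun i j hij => B.equivFin.symm.injective (Subtype.ext hij)) hC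
  have e : ∀ x : ZMod p, ∑ j : Fin B.card, χ (x + (B.equivFin.symm j : ZMod p)) =
      ∑ b ∈ B, χ (x + b) := by
    intro x
    rw [Equiv.sum_comp B.equivFin.symm (fun b : B => χ (x + (b : ZMod p)))]
    exact Finset.sum_coe_sort B (fun b => χ (x + b))
  simp only [e] at h
  exact h

end Pool.Agent.X222.PR
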