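import Pool.Agent.X222.PR.Main

/-! # Random points in arbitrary sets -/

set_option autoImplicit false

namespace Pool.Agent.X222.PR

open Finset

section count

variable {α : Type*} [DecidableEq α]

open Classical in
theorem pert_count (k t : ℕ) (ht : 1 ≤ t) (R : Fin k → Finset α) (L : Finset α) (ρ : ℝ)
    (hρ : 0 ≤ ρ) (hR : ∀ i, (L.card : ℝ) ≤ ρ * (R i).card) :
    ((((Fintype.piFinset R).filter fun x => t ≤ (univ.filter fun i => x i ∈ L).card).card : ℕ) : ℝ)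
      ≤ (3 * (k * ρ) / t) ^ t * ∏ i, ((R i).card : ℝ) := by
  have hsub : ((Fintype.piFinset R).filter fun x => t ≤ (univ.filter fun i => x i ∈ L).card) ⊆
      ((univ : Finset (Fin k)).powersetCard t).biUnion fun T =>
        Fintype.piFinset fun i => if i ∈ T then R i ∩ L else R i := by
    intro x hx
    rw [mem_filter] at hx
    obtain ⟨T, hT, hTc⟩ := exists_subset_card_eq hx.2
    rw [mem_biUnion]
    refine ⟨T, mem_powersetCard.2 ⟨subset_univ _, hTc⟩, ?_⟩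
    rw [Fintype.mem_piFinset]
    intro i
    have h1 := (Fintype.mem_piFinset.1 hx.1) i
    by_cases hi : i ∈ T
    · rw [if_pos hi]
      exact mem_inter.2 ⟨h1, (mem_filter.1 (hT hi)).2⟩
    · rw [if_neg hi]
      exact h1
  have hterm : ∀ T ∈ (univ : Finset (Fin k)).powersetCard t,
      (((Fintype.piFinset fun i => if i ∈ T then R i ∩ L else R i).card : ℕ) : ℝ) ≤
        ρ ^ t * ∏ i, ((R i).card : ℝ) := by
    intro T hT
    have hTc := (mem_powersetCard.1 hT).2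
    rw [Fintype.card_piFinset]
    push_cast
    have h1 : ρ ^ t = ∏ i : Fin k, (if i ∈ T then ρ else 1) := by
      rw [prod_ite, prod_const, prod_const_one, mul_one, filter_mem_eq_inter, univ_inter, hTc]
    rw [h1, ← prod_mul_distrib]
    refine prod_le_prod (fun i _ => Nat.cast_nonneg _) fun i _ => ?_
    by_cases hi : i ∈ T
    · rw [if_pos hi, if_pos hi]
      refine le_trans ?_ (hR i)
      exact_mod_cast card_le_card (inter_subset_right (s₁ := R i) (s₂ := L))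
    · rw [if_neg hi, if_neg hi, one_mul]
  have h1 : ((((Fintype.piFinset R).filter fun x =>
      t ≤ (univ.filter fun i => x i ∈ L).card).card : ℕ) : ℝ) ≤
      (k.choose t : ℝ) * (ρ ^ t * ∏ i, ((R i).card : ℝ)) := by
    refine le_trans (Nat.cast_le.2 ((card_le_card hsub).trans card_biUnion_le)) ?_
    rw [Nat.cast_sum]
    refine (sum_le_card_nsmul _ _ _ hterm).trans (le_of_eq ?_)
    rw [card_powersetCard, card_univ, Fintype.card_fin, nsmul_eq_mul]
  have hP : 0 ≤ ∏ i, ((R i).card : ℝ) := prod_nonneg fun _ _ => Nat.cast_nonneg _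
  refine h1.trans ?_
  calc (k.choose t : ℝ) * (ρ ^ t * ∏ i, ((R i).card : ℝ))
      ≤ ((k : ℝ) ^ t / (t.factorial : ℝ)) * (ρ ^ t * ∏ i, ((R i).card : ℝ)) :=
        mul_le_mul_of_nonneg_right (Nat.choose_le_pow_div t k) (by positivity)
    _ = ((k * ρ) ^ t / (t.factorial : ℝ)) * ∏ i, ((R i).card : ℝ) := by rw [mul_pow]; ring
    _ ≤ _ := mul_le_mul_of_nonneg_right (pow_div_fact _ (by positivity) t ht) hP

end count

open Classical in
/-- containers for families of points -/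
theorem containers_fam (ε : ℝ) (hε : 0 < ε) (hε1 : ε ≤ 1) : ∃ C : ℝ, 1 ≤ C ∧ ∃ p₀ : ℕ, 3 ≤ p₀ ∧
    ∀ (p : ℕ) [Fact p.Prime], p₀ ≤ p → ∀ n : ℕ, n ≤ p → C * Real.log p ≤ n →
      ∃ Lc : Finset (Finset (ZMod p)), Lc.card ≤ p ^ (n + 1) ∧
        (∀ L ∈ Lc, (L.card : ℝ) ≤ (p : ℝ) ^ (1 / 2 + ε / 2)) ∧
        ∀ χ : DirichletCharacter ℂ p, χ ≠ 1 → ∀ (k : ℕ) (x : Fin k → ZMod p) (I : Finset (Fin k))
          (B : Finset (ZMod p)) (η : ℝ), 0 < η → η ≤ 1 →
          C * η ^ (-C) * Real.log p ≤ n → n ≤ B.card →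
          η * (I.card * B.card) < ∑ i ∈ I, ‖∑ b ∈ B, χ (x i + b)‖ →
          ∃ L ∈ Lc, η * I.card / 2 ≤ ((univ.filter fun i => x i ∈ L).card : ℝ) := by
  obtain ⟨C, hC, p₀, hp₀3, hpar⟩ := params ε hε hε1
  refine ⟨C, hC, p₀, hp₀3, fun p hpp hp n hnp hn => ?_⟩
  have hC0 : 0 < C := by linarith
  have hlog := one_le_log (hp₀3.trans hp)
  have hCl : 0 < C * Real.log p := by positivity
  have hn0 : (0 : ℝ) < n := lt_of_lt_of_le hCl hn
  have hn1 : 1 ≤ n := by exact_mod_cast hn0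
  obtain ⟨σ, hσ⟩ : ∃ σ : ℝ, σ = (C * Real.log p / n) ^ (1 / C) := ⟨_, rfl⟩
  have hσ0 : 0 < σ := by rw [hσ]; positivity
  have hσ1 : σ ≤ 1 := by
    rw [hσ]
    exact Real.rpow_le_one (by positivity) ((div_le_one hn0).2 hn) (by positivity)
  have hσC : σ ^ (-C) = n / (C * Real.log p) := by
    rw [hσ, ← Real.rpow_mul (by positivity)]
    rw [show 1 / C * -C = -1 by field_simp, Real.rpow_neg_one, inv_div]
  have hσn : C * σ ^ (-C) * Real.log p = n := by
    rw [hσC]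
    field_simp
  obtain ⟨r, hr, hbound⟩ := hpar p hp σ n hσ0 hσ1 hnp hσn.le
  refine ⟨(((univ : Finset (ZMod p)).powersetCard n) ×ˢ
    ((univ : Finset (DirichletCharacter ℂ p)).filter fun χ => χ ≠ 1)).image
      fun w => lev w.2 w.1 (σ * n / 2), ?_, ?_, ?_⟩
  · refine card_image_le.trans ?_
    rw [card_product, card_powersetCard, card_univ, ZMod.card, pow_succ]
    refine Nat.mul_le_mul (Nat.choose_le_pow p n) ?_
    exact (card_filter_le _ _).trans card_char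
  · intro L hL
    obtain ⟨w, hw, rfl⟩ := mem_image.1 hL
    obtain ⟨h1, h2⟩ := mem_product.1 hw
    have h3 : w.1.card = n := (mem_powersetCard.1 h1).2
    have h4 := lev_card w.2 (mem_filter.1 h2).2 w.1 (by omega) r hr σ hσ0
    rw [h3] at h4
    exact h4.trans hbound
  · intro χ hχ k x I B η hη hη1 hnη hnB hlarge
    have hση : σ ≤ η := by
      by_contra hcon
      push Not at hcon
      have h1 := Real.rpow_lt_rpow_of_neg hη hcon (neg_lt_zero.2 hC0)
      have h2 : C * σ ^ (-C) * Real.log p < C * η ^ (-C) * Real.log p :=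
        mul_lt_mul_of_pos_right (mul_lt_mul_of_pos_left h1 hC0) (by linarith)
      linarith
    obtain ⟨B', hB', hc, h⟩ := capture I (fun i b => χ (x i + b)) (fun i b => χ.norm_le_one _) n
      hn1 B hnB η hη.le hlarge
    refine ⟨lev χ B' (σ * n / 2), mem_image.2 ⟨(B', χ), mem_product.2
      ⟨mem_powersetCard.2 ⟨subset_univ _, hc⟩, mem_filter.2 ⟨mem_univ _, hχ⟩⟩, rfl⟩, ?_⟩
    refine h.trans ?_
    have hsub : (I.filter fun i => η * n / 2 ≤ ‖∑ b ∈ B', χ (x i + b)‖) ⊆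
        univ.filter fun i => x i ∈ lev χ B' (σ * n / 2) := by
      intro i hi
      obtain ⟨h1, h2⟩ := mem_filter.1 hi
      refine mem_filter.2 ⟨mem_univ _, mem_filter.2 ⟨mem_univ _, le_trans ?_ h2⟩⟩
      have h3 : σ * n ≤ η * n := mul_le_mul_of_nonneg_right hση hn0.le
      linarith
    exact_mod_cast card_le_card hsub

open Classical in
/-- random points in arbitrary sets -/
theorem perturbed (ε : ℝ) (hε : 0 < ε) (hε1 : ε ≤ 1) : ∃ C : ℝ, 1 ≤ C ∧ ∃ p₀ : ℕ, 3 ≤ p₀ ∧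
    ∀ (p : ℕ) [Fact p.Prime], p₀ ≤ p → ∀ (k : ℕ) (R : Fin k → Finset (ZMod p)) (M : ℝ), 1 ≤ M →
      (∀ i, M * (p : ℝ) ^ (1 / 2 + ε) ≤ (R i).card) →
      ((((Fintype.piFinset R).filter fun x =>
        ∃ χ : DirichletCharacter ℂ p, χ ≠ 1 ∧ ∃ (I : Finset (Fin k)) (B : Finset (ZMod p)) (η : ℝ),
          0 < η ∧ η ≤ 1 ∧ C * η ^ (-C) * Real.log p ≤ B.card ∧
          C * η ^ (-C) * (Real.log p + k / M) ≤ I.card ∧
          η * (I.card * B.card) < ∑ i ∈ I, ‖∑ b ∈ B, χ (x i + b)‖).card : ℕ) : ℝ) ≤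
        (p : ℝ) ^ (-Real.log p) * ∏ i, ((R i).card : ℝ) := by
  obtain ⟨C₁, hC₁, p₀, hp₀3, hcont⟩ := containers_fam ε hε hε1
  obtain ⟨C₂, hC₂⟩ : ∃ C₂ : ℝ, C₂ = 8 / ε := ⟨_, rfl⟩
  have hC₂8 : 8 ≤ C₂ := by
    rw [hC₂, le_div_iff₀ hε]
    linarith
  refine ⟨4 * (C₂ + 1) * (C₁ + 1), by nlinarith, p₀, hp₀3, fun p hpp hp k R M hM hR => ?_⟩
  have hlog := one_le_log (hp₀3.trans hp)
  have hp1 : (1 : ℝ) ≤ p := by exact_mod_cast (by omega : 1 ≤ p)
  have hp0 : (0 : ℝ) < p := by linarith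
  have hM0 : 0 < M := by linarith
  have h : ∀ n : ℕ, ∃ Lc : Finset (Finset (ZMod p)), n ≤ p → C₁ * Real.log p ≤ n →
      Lc.card ≤ p ^ (n + 1) ∧
        (∀ L ∈ Lc, (L.card : ℝ) ≤ (p : ℝ) ^ (1 / 2 + ε / 2)) ∧
        ∀ χ : DirichletCharacter ℂ p, χ ≠ 1 → ∀ (k : ℕ) (x : Fin k → ZMod p) (I : Finset (Fin k))
          (B : Finset (ZMod p)) (η : ℝ), 0 < η → η ≤ 1 →
          C₁ * η ^ (-C₁) * Real.log p ≤ n → n ≤ B.card →
          η * (I.card * B.card) < ∑ i ∈ I, ‖∑ b ∈ B, χ (x i + b)‖ →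
          ∃ L ∈ Lc, η * I.card / 2 ≤ ((univ.filter fun i => x i ∈ L).card : ℝ) := by
    intro n
    by_cases h1 : n ≤ p ∧ C₁ * Real.log p ≤ n
    · obtain ⟨Lc, h2⟩ := hcont p hp n h1.1 h1.2
      exact ⟨Lc, fun _ _ => h2⟩
    · exact ⟨∅, fun h2 h3 => absurd ⟨h2, h3⟩ h1⟩
  choose Lc hLc using h
  set K : ℝ := k / M with hK
  have hK0 : 0 ≤ K := by positivity
  have hP0 : 0 ≤ ∏ i, ((R i).card : ℝ) := prod_nonneg fun _ _ => Nat.cast_nonneg _
  obtain ⟨t, ht⟩ : ∃ t : ℕ → ℕ, t = fun n : ℕ => ⌈C₂ * ((n : ℝ) + K)⌉₊ := ⟨_, rfl⟩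
  have hsub : ((Fintype.piFinset R).filter fun x =>
        ∃ χ : DirichletCharacter ℂ p, χ ≠ 1 ∧ ∃ (I : Finset (Fin k)) (B : Finset (ZMod p)) (η : ℝ),
          0 < η ∧ η ≤ 1 ∧
          (4 * (C₂ + 1) * (C₁ + 1)) * η ^ (-(4 * (C₂ + 1) * (C₁ + 1))) * Real.log p ≤ B.card ∧
          (4 * (C₂ + 1) * (C₁ + 1)) * η ^ (-(4 * (C₂ + 1) * (C₁ + 1))) *
            (Real.log p + K) ≤ I.card ∧
          η * (I.card * B.card) < ∑ i ∈ I, ‖∑ b ∈ B, χ (x i + b)‖) ⊆
      ((Icc 1 p).filter fun n : ℕ => C₁ * Real.log p ≤ n).biUnion fun n =>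
        (Lc n).biUnion fun L =>
          (Fintype.piFinset R).filter fun x => t n ≤ (univ.filter fun i => x i ∈ L).card := by
    intro x hx
    obtain ⟨hSk, χ, hχ, I, B, η, hη, hη1, hB, hA, hlarge⟩ := mem_filter.1 hx
    set D : ℝ := 4 * (C₂ + 1) * (C₁ + 1) with hD
    have hD1 : C₁ + 1 ≤ D := by nlinarith
    have hη1' : 1 ≤ η ^ (-C₁) := Real.one_le_rpow_of_pos_of_le_one_of_nonpos hη hη1 (by linarith)
    have hηD : η ^ (-C₁) ≤ η ^ (-D) :=
      Real.rpow_le_rpow_of_exponent_ge hη hη1 (by linarith)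
    have hηD1 : η ^ (-C₁) ≤ η ^ (1 - D) :=
      Real.rpow_le_rpow_of_exponent_ge hη hη1 (by linarith)
    have hηD2 : η * η ^ (-D) = η ^ (1 - D) := by
      rw [sub_eq_add_neg, Real.rpow_add hη, Real.rpow_one]
    obtain ⟨n, hn⟩ : ∃ n : ℕ, n = ⌈C₁ * η ^ (-C₁) * Real.log p⌉₊ := ⟨_, rfl⟩
    have hx0 : 1 ≤ η ^ (-C₁) * Real.log p := by nlinarith
    have hn1 : C₁ * η ^ (-C₁) * Real.log p ≤ n := by rw [hn]; exact Nat.le_ceil _
    have hn2 : (n : ℝ) ≤ (C₁ + 1) * (η ^ (-C₁) * Real.log p) := by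
      have h1 : (n : ℝ) < C₁ * η ^ (-C₁) * Real.log p + 1 := by
        rw [hn]
        exact Nat.ceil_lt_add_one (by positivity)
      nlinarith
    have hn3 : C₁ * Real.log p ≤ n := by
      refine le_trans ?_ hn1
      have : C₁ * 1 ≤ C₁ * η ^ (-C₁) := mul_le_mul_of_nonneg_left hη1' (by linarith)
      nlinarith
    have hnB : n ≤ B.card := by
      have h1 : (n : ℝ) ≤ B.card := by
        refine hn2.trans (le_trans ?_ hB)
        rw [mul_assoc]
        refine mul_le_mul hD1 ?_ (by positivity) (by linarith)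
        exact mul_le_mul_of_nonneg_right hηD (by linarith)
      exact_mod_cast h1
    have hBp : B.card ≤ p := by
      have := card_le_univ B
      rwa [ZMod.card] at this
    have hn1' : 1 ≤ n := by
      have h1 : (0 : ℝ) < n := lt_of_lt_of_le (by positivity) hn3
      exact_mod_cast h1
    obtain ⟨-, -, h3⟩ := hLc n (hnB.trans hBp) hn3
    obtain ⟨L, hL, hAL⟩ := h3 χ hχ k x I B η hη hη1 hn1 hnB hlarge
    rw [mem_biUnion]
    refine ⟨n, mem_filter.2 ⟨mem_Icc.2 ⟨hn1', hnB.trans hBp⟩, hn3⟩, ?_⟩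
    rw [mem_biUnion]
    refine ⟨L, hL, mem_filter.2 ⟨hSk, ?_⟩⟩
    rw [ht]
    simp only
    rw [Nat.ceil_le]
    refine le_trans ?_ hAL
    have h5 : η * (D * η ^ (-D) * (Real.log p + K)) ≤ η * I.card :=
      mul_le_mul_of_nonneg_left hA hη.le
    have h6 : η * (D * η ^ (-D) * (Real.log p + K)) = D * η ^ (1 - D) * (Real.log p + K) := by
      rw [← hηD2]; ring
    have h7 : D * η ^ (-C₁) * (Real.log p + K) ≤ D * η ^ (1 - D) * (Real.log p + K) := by
      refine mul_le_mul_of_nonneg_right ?_ (by linarith)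
      exact mul_le_mul_of_nonneg_left hηD1 (by linarith)
    have h8 : C₂ * (n + K) ≤ D * η ^ (-C₁) * (Real.log p + K) / 2 := by
      have h9 : (n : ℝ) + K ≤ (C₁ + 1) * (η ^ (-C₁) * (Real.log p + K)) := by
        have h10 : K ≤ (C₁ + 1) * (η ^ (-C₁) * K) := by
          have h11 : 1 * K ≤ η ^ (-C₁) * K := mul_le_mul_of_nonneg_right hη1' hK0
          nlinarith
        nlinarith
      have h12 : C₂ * (n + K) ≤ C₂ * ((C₁ + 1) * (η ^ (-C₁) * (Real.log p + K))) :=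
        mul_le_mul_of_nonneg_left h9 (by linarith)
      have h13 : 0 ≤ (C₁ + 1) * (η ^ (-C₁) * (Real.log p + K)) := by positivity
      rw [hD]
      nlinarith
    linarith
  have hterm : ∀ n ∈ (Icc 1 p).filter (fun n : ℕ => C₁ * Real.log p ≤ n), ∀ L ∈ Lc n,
      ((((Fintype.piFinset R).filter fun x =>
        t n ≤ (univ.filter fun i => x i ∈ L).card).card : ℕ) : ℝ) ≤
        (∏ i, ((R i).card : ℝ)) * ((p : ℝ) ^ (4 * n))⁻¹ := by
    intro n hn L hL
    obtain ⟨hn1, hn3⟩ := mem_filter.1 hn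
    obtain ⟨hn1, hn2⟩ := mem_Icc.1 hn1
    obtain ⟨-, h2, -⟩ := hLc n hn2 hn3
    have hLn := h2 L hL
    have htn : C₂ * (n + K) ≤ t n := by rw [ht]; exact Nat.le_ceil _
    have hn1' : (1 : ℝ) ≤ n := by exact_mod_cast hn1
    have ht0 : (0 : ℝ) < t n := lt_of_lt_of_le (by positivity) htn
    have ht1 : 1 ≤ t n := by exact_mod_cast ht0
    have hρ : ∀ i, (L.card : ℝ) ≤ ((p : ℝ) ^ (-(ε / 2)) / M) * (R i).card := by
      intro i
      have h4 : (p : ℝ) ^ (1 / 2 + ε / 2) =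
          ((p : ℝ) ^ (-(ε / 2)) / M) * (M * (p : ℝ) ^ (1 / 2 + ε)) := by
        have : (p : ℝ) ^ (1 / 2 + ε / 2) = (p : ℝ) ^ (-(ε / 2)) * (p : ℝ) ^ (1 / 2 + ε) := by
          rw [← Real.rpow_add hp0]
          congr 1
          ring
        rw [this]
        field_simp
      refine hLn.trans ?_
      rw [h4]
      exact mul_le_mul_of_nonneg_left (hR i) (by positivity)
    have h1 := pert_count k (t n) ht1 R L _ (by positivity) hρ
    refine h1.trans ?_
    rw [mul_comm]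
    refine mul_le_mul_of_nonneg_left ?_ hP0
    have h3 : 3 * ((k : ℝ) * ((p : ℝ) ^ (-(ε / 2)) / M)) / t n ≤ (p : ℝ) ^ (-(ε / 2)) := by
      rw [div_le_iff₀ ht0]
      have h4 : (k : ℝ) * ((p : ℝ) ^ (-(ε / 2)) / M) = (p : ℝ) ^ (-(ε / 2)) * K := by
        rw [hK]
        ring
      have h6 : (p : ℝ) ^ (-(ε / 2)) * (C₂ * K) ≤ (p : ℝ) ^ (-(ε / 2)) * t n := by
        refine mul_le_mul_of_nonneg_left ?_ (by positivity)
        refine le_trans ?_ htn
        exact mul_le_mul_of_nonneg_left (by linarith) (by linarith)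
      have h7 : 0 ≤ (p : ℝ) ^ (-(ε / 2)) * K := by positivity
      rw [h4]
      nlinarith
    calc (3 * ((k : ℝ) * ((p : ℝ) ^ (-(ε / 2)) / M)) / t n) ^ t n
        ≤ ((p : ℝ) ^ (-(ε / 2))) ^ t n := pow_le_pow_left₀ (by positivity) h3 _
      _ = (p : ℝ) ^ (-(ε / 2) * t n) := by rw [← Real.rpow_natCast, ← Real.rpow_mul hp0.le]
      _ ≤ (p : ℝ) ^ (-((4 * n : ℕ) : ℝ)) := by
          refine Real.rpow_le_rpow_of_exponent_le hp1 ?_
          push_cast
          have h8 : C₂ * n ≤ t n := le_trans (mul_le_mul_of_nonneg_left (by linarith)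
            (by linarith)) htn
          have h9 : ε / 2 * (C₂ * n) = 4 * n := by rw [hC₂]; field_simp; norm_num
          have h10 : ε / 2 * (C₂ * n) ≤ ε / 2 * t n :=
            mul_le_mul_of_nonneg_left h8 (by positivity)
          linarith
      _ = ((p : ℝ) ^ (4 * n))⁻¹ := by rw [Real.rpow_neg hp0.le, Real.rpow_natCast]
  have hcard := (card_le_card hsub).trans card_biUnion_le
  have hcard2 := Nat.cast_le (α := ℝ).2 hcard
  rw [Nat.cast_sum] at hcard2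
  refine hcard2.trans ?_
  have hsum : ∀ n ∈ (Icc 1 p).filter (fun n : ℕ => C₁ * Real.log p ≤ n),
      ((((Lc n).biUnion fun L => (Fintype.piFinset R).filter fun x =>
          t n ≤ (univ.filter fun i => x i ∈ L).card).card : ℕ) : ℝ) ≤
      (∏ i, ((R i).card : ℝ)) * (p : ℝ) ^ (-1 - Real.log p) := by
    intro n hn
    refine (Nat.cast_le.2 card_biUnion_le).trans ?_
    rw [Nat.cast_sum]
    refine (sum_le_card_nsmul _ _ _ (hterm n hn)).trans ?_
    obtain ⟨hn1, hn3⟩ := mem_filter.1 hn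
    obtain ⟨hn1, hn2⟩ := mem_Icc.1 hn1
    obtain ⟨h1, -, -⟩ := hLc n hn2 hn3
    have hn1' : (1 : ℝ) ≤ n := by exact_mod_cast hn1
    have hln : Real.log p ≤ n := by nlinarith
    rw [nsmul_eq_mul]
    calc ((Lc n).card : ℝ) * ((∏ i, ((R i).card : ℝ)) * ((p : ℝ) ^ (4 * n))⁻¹)
        ≤ (p : ℝ) ^ (n + 1) * ((∏ i, ((R i).card : ℝ)) * ((p : ℝ) ^ (4 * n))⁻¹) :=
          mul_le_mul_of_nonneg_right (by exact_mod_cast h1) (by positivity)
      _ = (∏ i, ((R i).card : ℝ)) * ((p : ℝ) ^ (((n + 1 : ℕ) : ℝ) - ((4 * n : ℕ) : ℝ))) := by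
          rw [Real.rpow_sub hp0, Real.rpow_natCast, Real.rpow_natCast]
          ring
      _ ≤ (∏ i, ((R i).card : ℝ)) * (p : ℝ) ^ (-1 - Real.log p) := by
          refine mul_le_mul_of_nonneg_left ?_ hP0
          refine Real.rpow_le_rpow_of_exponent_le hp1 ?_
          push_cast
          linarith
  refine (sum_le_card_nsmul _ _ _ hsum).trans ?_
  rw [nsmul_eq_mul]
  have hc : ((((Icc 1 p).filter fun n : ℕ => C₁ * Real.log p ≤ n).card : ℕ) : ℝ) ≤ p := by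
    have := card_filter_le (Icc 1 p) fun n : ℕ => C₁ * Real.log p ≤ n
    rw [Nat.card_Icc] at this
    exact_mod_cast (by omega : ((Icc 1 p).filter fun n : ℕ => C₁ * Real.log p ≤ n).card ≤ p)
  calc ((((Icc 1 p).filter fun n : ℕ => C₁ * Real.log p ≤ n).card : ℕ) : ℝ) *
        ((∏ i, ((R i).card : ℝ)) * (p : ℝ) ^ (-1 - Real.log p))
      ≤ (p : ℝ) * ((∏ i, ((R i).card : ℝ)) * (p : ℝ) ^ (-1 - Real.log p)) :=
        mul_le_mul_of_nonneg_right hc (by positivity)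
    _ = (p : ℝ) ^ (-Real.log p) * ∏ i, ((R i).card : ℝ) := by
        have h1 : (p : ℝ) ^ (-Real.log p) = (p : ℝ) * (p : ℝ) ^ (-1 - Real.log p) := by
          rw [← Real.rpow_one_add' hp0.le (by linarith)]
          congr 1
          ring
        rw [h1]
        ring

end Pool.Agent.X222.PR
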